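import Mathlib

namespace Pool.Agent.Lib.MP_66cbdd_co

variable {α : Type*}

/-- No loops and no parallel pairs: any one or two elements of the ground set are independent. -/
def IsSimple (M : Matroid α) : Prop :=
  ∀ x ∈ M.E, ∀ y ∈ M.E, M.Indep {x, y}

/-- A line is a flat of rank two. -/
def IsLine (M : Matroid α) (l : Set α) : Prop :=
  M.IsFlat l ∧ M.eRk l = 2

/-- The `n`-dimensional joints of a family of lines. -/
def joints (M : Matroid α) (n : ℕ) (Λ : Finset (Set α)) : Set α :=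
  {x | x ∈ M.E ∧ ∃ l : Fin n → Set α, (∀ i, l i ∈ Λ ∧ x ∈ l i) ∧
    (n : ℕ∞) + 1 ≤ M.eRk (⋃ i, l i)}

/-- The largest number of `n`-dimensional joints of `L` lines in a finite simple matroid. -/
noncomputable def J (n L : ℕ) : ℕ :=
  sSup {k | ∃ (M : Matroid ℕ) (Λ : Finset (Set ℕ)), M.E.Finite ∧ IsSimple M ∧
    (∀ l ∈ Λ, IsLine M l) ∧ Λ.card = L ∧ (joints M n Λ).ncard = k}

end Pool.Agent.Lib.MP_66cbdd_co
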