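import Mathlib
import Pool.Agent.Lib.MP_66cbdd_co.Defs

/-!
A matroid attached to an incidence structure of points (`G`) and lines (`V`).
A point `e` lies on the lines `τ e`.  A set `I` of points is independent when it has at most
`n + 1` elements and, for each set `S` of at most `j` lines, the number of points of `I` on lines
of `S` is at most `2 |S| - ∑ e, (|τ e ∩ S| - 1)₊`.
-/

namespace Pool.Agent.Lib.MP_66cbdd_co.Lower

open Finset

variable {α V : Type*} [DecidableEq α] [DecidableEq V]

/-- The excess of a set of lines. -/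
def exc (G : Finset α) (τ : α → Finset V) (S : Finset V) : ℕ :=
  ∑ e ∈ G, ((τ e ∩ S).card - 1)

/-- The points of `I` on some line of `S`. -/
def hit (τ : α → Finset V) (I : Finset α) (S : Finset V) : Finset α :=
  I.filter (fun e => (τ e ∩ S).Nonempty)

/-- Independence of a finite set of points. -/
def Ind (G : Finset α) (τ : α → Finset V) (n j : ℕ) (I : Finset α) : Prop :=
  I ⊆ G ∧ I.card ≤ n + 1 ∧ ∀ S : Finset V, S.card ≤ j → (hit τ I S).card + exc G τ S ≤ 2 * S.card

omit [DecidableEq α] in
lemma hit_mono (τ : α → Finset V) {I J : Finset α} (h : I ⊆ J) (S : Finset V) :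
    hit τ I S ⊆ hit τ J S := filter_subset_filter _ h

omit [DecidableEq α] in
lemma hit_subset (τ : α → Finset V) (I : Finset α) (S : Finset V) : hit τ I S ⊆ I :=
  filter_subset _ _

omit [DecidableEq α] in
lemma exc_empty (G : Finset α) (τ : α → Finset V) : exc G τ ∅ = 0 := by
  simp [exc]

omit [DecidableEq α] in
lemma hit_empty (τ : α → Finset V) (I : Finset α) : hit τ I ∅ = ∅ := by
  simp [hit]

omit [DecidableEq α] in
lemma exc_singleton (G : Finset α) (τ : α → Finset V) (v : V) : exc G τ {v} = 0 := by
  unfold exc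
  refine sum_eq_zero fun e _ => ?_
  have : (τ e ∩ {v}).card ≤ 1 := by
    calc (τ e ∩ {v}).card ≤ ({v} : Finset V).card := card_le_card inter_subset_right
      _ = 1 := card_singleton v
  omega

lemma phi_eq (G : Finset α) (τ : α → Finset V) {I : Finset α} (hI : I ⊆ G) (S : Finset V) :
    (hit τ I S).card + exc G τ S =
      ∑ e ∈ G, (if e ∈ I then (τ e ∩ S).card else (τ e ∩ S).card - 1) := by
  have h1 : (hit τ I S).card =
      ∑ e ∈ G, (if e ∈ I ∧ (τ e ∩ S).Nonempty then 1 else 0) := by
    rw [← card_filter]
    congr 1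
    ext e
    simp only [hit, mem_filter]
    constructor
    · rintro ⟨h1, h2⟩; exact ⟨hI h1, h1, h2⟩
    · rintro ⟨-, h1, h2⟩; exact ⟨h1, h2⟩
  rw [h1, exc, ← sum_add_distrib]
  refine sum_congr rfl fun e _ => ?_
  by_cases he : e ∈ I
  · by_cases hn : (τ e ∩ S).Nonempty
    · have := hn.card_pos
      simp only [he, hn, and_self, if_true]
      omega
    · have : (τ e ∩ S).card = 0 := by
        rw [not_nonempty_iff_eq_empty] at hn
        simp [hn]
      simp [he, hn, this]
  · simp [he]

lemma supermod (G : Finset α) (τ : α → Finset V) {I : Finset α} (hI : I ⊆ G) (S T : Finset V) :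
    ((hit τ I S).card + exc G τ S) + ((hit τ I T).card + exc G τ T) ≤
      ((hit τ I (S ∪ T)).card + exc G τ (S ∪ T)) + ((hit τ I (S ∩ T)).card + exc G τ (S ∩ T)) := by
  rw [phi_eq G τ hI, phi_eq G τ hI, phi_eq G τ hI, phi_eq G τ hI, ← sum_add_distrib,
    ← sum_add_distrib]
  refine sum_le_sum fun e _ => ?_
  have h1 : (τ e ∩ (S ∪ T)).card + (τ e ∩ (S ∩ T)).card = (τ e ∩ S).card + (τ e ∩ T).card := by
    rw [← card_union_add_card_inter (τ e ∩ S) (τ e ∩ T), ← inter_union_distrib_left,
      ← inter_inter_distrib_left]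
  have h2 : (τ e ∩ (S ∩ T)).card ≤ (τ e ∩ S).card :=
    card_le_card (inter_subset_inter_left inter_subset_left)
  have h3 : (τ e ∩ (S ∩ T)).card ≤ (τ e ∩ T).card :=
    card_le_card (inter_subset_inter_left inter_subset_right)
  split_ifs <;> omega

/-- The gap property: no set of between `j + 1` and `2 j` lines has rank at most `n`. -/
def Gap (G : Finset α) (τ : α → Finset V) (n j : ℕ) : Prop :=
  ∀ S : Finset V, j < S.card → S.card ≤ 2 * j → n + 1 + exc G τ S ≤ 2 * S.card

lemma tight_union {G : Finset α} {τ : α → Finset V} {n j : ℕ} (hgap : Gap G τ n j)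
    {I : Finset α} (hI : Ind G τ n j I) (hn : I.card ≤ n) {S T : Finset V}
    (hS : S.card ≤ j) (hT : T.card ≤ j)
    (hS' : 2 * S.card ≤ (hit τ I S).card + exc G τ S)
    (hT' : 2 * T.card ≤ (hit τ I T).card + exc G τ T) :
    (S ∪ T).card ≤ j ∧ 2 * (S ∪ T).card ≤ (hit τ I (S ∪ T)).card + exc G τ (S ∪ T) := by
  have h1 := supermod G τ hI.1 S T
  have h2 := card_union_add_card_inter S T
  have h3 : (S ∩ T).card ≤ S.card := card_le_card inter_subset_left
  have h4 := hI.2.2 (S ∩ T) (h3.trans hS)
  have h5 : 2 * (S ∪ T).card ≤ (hit τ I (S ∪ T)).card + exc G τ (S ∪ T) := by omega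
  refine ⟨?_, h5⟩
  by_contra hj
  have h6 := hgap (S ∪ T) (by omega) (by omega)
  have h7 : (hit τ I (S ∪ T)).card ≤ I.card := card_le_card (hit_subset _ _ _)
  omega

lemma ind_aug {G : Finset α} {τ : α → Finset V} {n j : ℕ} (hgap : Gap G τ n j)
    {I J : Finset α} (hI : Ind G τ n j I) (hJ : Ind G τ n j J) (hIJ : I.card < J.card) :
    ∃ e ∈ J, e ∉ I ∧ Ind G τ n j (insert e I) := by
  by_contra hcon
  push Not at hcon
  have hn : I.card ≤ n := by have := hJ.2.1; omega
  have key : ∀ e ∈ J, e ∉ I → ∃ S : Finset V, S.card ≤ j ∧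
      2 * S.card ≤ (hit τ I S).card + exc G τ S ∧ (τ e ∩ S).Nonempty := by
    intro e heJ heI
    have h := hcon e heJ heI
    unfold Ind at h
    push Not at h
    obtain ⟨S, hS, hS'⟩ := h (insert_subset (hJ.1 heJ) hI.1)
      (by rw [card_insert_of_notMem heI]; omega)
    have h0 := hI.2.2 S hS
    by_cases hne : (τ e ∩ S).Nonempty
    · have : (hit τ (insert e I) S).card ≤ (hit τ I S).card + 1 := by
        unfold hit
        rw [filter_insert, if_pos hne]
        exact card_insert_le _ _
      exact ⟨S, hS, by omega, hne⟩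
    · have : hit τ (insert e I) S = hit τ I S := by
        unfold hit
        rw [filter_insert, if_neg hne]
      rw [this] at hS'
      omega
  have key2 : ∀ D : Finset α, D ⊆ J \ I → ∃ S : Finset V, S.card ≤ j ∧
      2 * S.card ≤ (hit τ I S).card + exc G τ S ∧ ∀ e ∈ D, (τ e ∩ S).Nonempty := by
    intro D
    induction D using Finset.induction_on with
    | empty => intro _; exact ⟨∅, by simp, by simp, by simp⟩
    | insert e D he ih =>
      intro hD
      obtain ⟨S, hS, hS', hSD⟩ := ih ((subset_insert _ _).trans hD)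
      have heJ := mem_sdiff.1 (hD (mem_insert_self _ _))
      obtain ⟨T, hT, hT', hTe⟩ := key e heJ.1 heJ.2
      obtain ⟨h1, h2⟩ := tight_union hgap hI hn hS hT hS' hT'
      refine ⟨S ∪ T, h1, h2, ?_⟩
      intro x hx
      rcases mem_insert.1 hx with rfl | hx
      · exact hTe.mono (inter_subset_inter_left subset_union_right)
      · exact (hSD x hx).mono (inter_subset_inter_left subset_union_left)
  obtain ⟨S, hS, hS', hSD⟩ := key2 (J \ I) Subset.rfl
  have h1 := hJ.2.2 S hS
  have h2 := card_filter_add_card_filter_not (s := J) (fun e => (τ e ∩ S).Nonempty)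
  have h3 := card_filter_add_card_filter_not (s := I) (fun e => (τ e ∩ S).Nonempty)
  have h4 : (J.filter (fun e => ¬ (τ e ∩ S).Nonempty)).card ≤
      (I.filter (fun e => ¬ (τ e ∩ S).Nonempty)).card := by
    refine card_le_card fun e he => ?_
    rw [mem_filter] at he ⊢
    refine ⟨?_, he.2⟩
    by_contra heI
    exact he.2 (hSD e (mem_sdiff.2 ⟨he.1, heI⟩))
  unfold hit at h1 hS'
  omega

omit [DecidableEq α] in
lemma ind_subset {G : Finset α} {τ : α → Finset V} {n j : ℕ} {I J : Finset α}
    (hJ : Ind G τ n j J) (hIJ : I ⊆ J) : Ind G τ n j I := by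
  refine ⟨hIJ.trans hJ.1, (card_le_card hIJ).trans hJ.2.1, fun S hS => ?_⟩
  have h1 := hJ.2.2 S hS
  have h2 := card_le_card (hit_mono τ hIJ S)
  omega

/-- Any two or more (and at most `j`) lines span rank at least three. -/
def Three (G : Finset α) (τ : α → Finset V) (j : ℕ) : Prop :=
  ∀ S : Finset V, 2 ≤ S.card → S.card ≤ j → 3 + exc G τ S ≤ 2 * S.card

omit [DecidableEq α] in
lemma ind_of_small {G : Finset α} {τ : α → Finset V} {n j : ℕ} (h3 : Three G τ j) (hn : 2 ≤ n)
    {I : Finset α} (hI : I ⊆ G) (hc : I.card ≤ 3) (hv : ∀ v, (hit τ I {v}).card ≤ 2) :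
    Ind G τ n j I := by
  refine ⟨hI, by omega, fun S hS => ?_⟩
  rcases Nat.lt_or_ge S.card 2 with h | h
  · rcases Nat.lt_or_ge S.card 1 with h' | h'
    · have : S = ∅ := card_eq_zero.1 (by omega)
      subst this
      simp [hit_empty, exc_empty]
    · obtain ⟨v, rfl⟩ := card_eq_one.1 (show S.card = 1 by omega)
      rw [exc_singleton]
      simpa using hv v
  · have h1 := h3 S h hS
    have h2 := card_le_card (hit_subset τ I S)
    omega

/-- The matroid. -/
noncomputable def mat {G : Finset α} {τ : α → Finset V} {n j : ℕ} (hgap : Gap G τ n j)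
    (h3 : Three G τ j) (hn : 2 ≤ n) : Matroid α :=
  (IndepMatroid.ofFinset (G : Set α) (Ind G τ n j)
    (ind_of_small h3 hn (empty_subset _) (by simp) (by simp [hit]))
    (fun _ _ hJ hIJ => ind_subset hJ hIJ)
    (fun _ _ hI hJ hIJ => ind_aug hgap hI hJ hIJ)
    (fun _ hI => coe_subset.2 hI.1)).matroid

lemma mat_E {G : Finset α} {τ : α → Finset V} {n j : ℕ} (hgap : Gap G τ n j)
    (h3 : Three G τ j) (hn : 2 ≤ n) : (mat hgap h3 hn).E = G := rfl

lemma mat_indep {G : Finset α} {τ : α → Finset V} {n j : ℕ} (hgap : Gap G τ n j)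
    (h3 : Three G τ j) (hn : 2 ≤ n) (I : Finset α) :
    (mat hgap h3 hn).Indep I ↔ Ind G τ n j I := by
  unfold mat
  rw [IndepMatroid.matroid_indep_iff, IndepMatroid.ofFinset_indep]

lemma mat_simple {G : Finset α} {τ : α → Finset V} {n j : ℕ} (hgap : Gap G τ n j)
    (h3 : Three G τ j) (hn : 2 ≤ n) : IsSimple (mat hgap h3 hn) := by
  intro x hx y hy
  rw [mat_E] at hx hy
  have : ({x, y} : Set α) = (({x, y} : Finset α) : Set α) := by simp
  rw [this, mat_indep]
  have hc : ({x, y} : Finset α).card ≤ 2 := card_le_two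
  refine ind_of_small h3 hn ?_ (by omega) fun v => (card_le_card (hit_subset _ _ _)).trans hc
  intro z hz
  simp only [mem_insert, mem_singleton] at hz
  rcases hz with rfl | rfl
  · exact hx
  · exact hy

/-- The set of points on the line `v`. -/
def line (G : Finset α) (τ : α → Finset V) (v : V) : Set α := {e | e ∈ G ∧ v ∈ τ e}

lemma mat_line {G : Finset α} {τ : α → Finset V} {n j : ℕ} (hgap : Gap G τ n j)
    (h3 : Three G τ j) (hn : 2 ≤ n) (hj : 1 ≤ j) (v : V) {p q : α} (hp : p ∈ G) (hq : q ∈ G)
    (hpq : p ≠ q) (hτp : τ p = {v}) (hτq : τ q = {v}) :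
    IsLine (mat hgap h3 hn) (line G τ v) := by
  have hB : (mat hgap h3 hn).Indep {p, q} := mat_simple hgap h3 hn p hp q hq
  have hcl : (mat hgap h3 hn).closure {p, q} = line G τ v := by
    ext x
    rw [hB.mem_closure_iff', mat_E]
    have e1 : (insert x {p, q} : Set α) = (({x, p, q} : Finset α) : Set α) := by simp
    rw [e1, mat_indep]
    constructor
    · rintro ⟨hx, h⟩
      refine ⟨hx, ?_⟩
      by_contra hv
      have hind : Ind G τ n j {x, p, q} := by
        refine ind_of_small h3 hn ?_ card_le_three fun w => ?_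
        · intro z hz
          simp only [mem_insert, mem_singleton] at hz
          rcases hz with rfl | rfl | rfl
          · exact hx
          · exact hp
          · exact hq
        · by_cases hw : w = v
          · subst hw
            have : hit τ {x, p, q} {w} ⊆ {p, q} := by
              intro z hz
              simp only [hit, mem_filter, mem_insert, mem_singleton] at hz ⊢
              obtain ⟨rfl | rfl | rfl, u, hu⟩ := hz
              · simp only [mem_inter, mem_singleton] at hu
                obtain ⟨hu, rfl⟩ := hu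
                exact absurd hu hv
              · simp
              · simp
            exact (card_le_card this).trans card_le_two
          · have : hit τ {x, p, q} {w} ⊆ {x} := by
              intro z hz
              simp only [hit, mem_filter, mem_insert, mem_singleton] at hz ⊢
              obtain ⟨rfl | rfl | rfl, u, hu⟩ := hz
              · rfl
              · simp only [hτp, mem_inter, mem_singleton] at hu
                exact absurd (hu.2.symm.trans hu.1) hw
              · simp only [hτq, mem_inter, mem_singleton] at hu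
                exact absurd (hu.2.symm.trans hu.1) hw
            exact (card_le_card this).trans (by simp)
      rcases h hind with rfl | rfl
      · exact hv (by simp [hτp])
      · exact hv (by simp [hτq])
    · rintro ⟨hx, hv⟩
      refine ⟨hx, fun hind => ?_⟩
      by_contra hx'
      simp only [Set.mem_insert_iff, Set.mem_singleton_iff, not_or] at hx'
      have h1 := hind.2.2 {v} (by simpa using hj)
      have h2 : hit τ {x, p, q} {v} = {x, p, q} := by
        unfold hit
        refine filter_true_of_mem fun z hz => ⟨v, ?_⟩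
        simp only [mem_insert, mem_singleton] at hz
        rcases hz with rfl | rfl | rfl
        · simp [hv]
        · simp [hτp]
        · simp [hτq]
      have h4 : ({x, p, q} : Finset α).card = 3 := by
        rw [card_eq_three]
        exact ⟨x, p, q, hx'.1, hx'.2, hpq, rfl⟩
      rw [h2, h4, card_singleton] at h1
      omega
  rw [← hcl]
  refine ⟨Matroid.isFlat_closure _, ?_⟩
  rw [Matroid.eRk_closure_eq, hB.eRk_eq_encard, Set.encard_pair hpq]

lemma mat_joint {G : Finset α} {τ : α → Finset V} {n j : ℕ} (hgap : Gap G τ n j)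
    (h3 : Three G τ j) (hn : 2 ≤ n) (p : V → α) (hp : ∀ v, p v ∈ G) (hτp : ∀ v, τ (p v) = {v})
    (Λ : Finset (Set α)) (hΛ : ∀ v, line G τ v ∈ Λ) {a : α} (ha : a ∈ G) (hcard : (τ a).card = n)
    (hstar : ∀ S : Finset V, S.card ≤ j → (τ a ∩ S).Nonempty →
      (τ a ∩ S).card + 1 + exc G τ S ≤ 2 * S.card) :
    a ∈ joints (mat hgap h3 hn) n Λ := by
  have hpinj : Function.Injective p := by
    intro v w h
    have := hτp v
    rw [h, hτp w] at this
    exact (singleton_injective this).symm
  have hap : a ∉ (τ a).image p := by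
    intro h
    obtain ⟨v, -, hv⟩ := mem_image.1 h
    have := hτp v
    rw [hv] at this
    rw [this, card_singleton] at hcard
    omega
  have hIc : (insert a ((τ a).image p)).card = n + 1 := by
    rw [card_insert_of_notMem hap, card_image_of_injective _ hpinj, hcard]
  have hind : Ind G τ n j (insert a ((τ a).image p)) := by
    refine ⟨insert_subset ha ?_, hIc.le, fun S hS => ?_⟩
    · intro z hz
      obtain ⟨v, -, rfl⟩ := mem_image.1 hz
      exact hp v
    · have hsub : hit τ ((τ a).image p) S ⊆ (τ a ∩ S).image p := by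
        intro z hz
        simp only [hit, mem_filter, mem_image] at hz ⊢
        obtain ⟨⟨v, hv, rfl⟩, u, hu⟩ := hz
        simp only [hτp, mem_inter, mem_singleton] at hu
        obtain ⟨rfl, hu⟩ := hu
        exact ⟨u, mem_inter.2 ⟨hv, hu⟩, rfl⟩
      have hle : (hit τ ((τ a).image p) S).card ≤ (τ a ∩ S).card :=
        (card_le_card hsub).trans card_image_le
      by_cases hne : (τ a ∩ S).Nonempty
      · have h1 := hstar S hS hne
        have h2 : (hit τ (insert a ((τ a).image p)) S).card ≤
            (hit τ ((τ a).image p) S).card + 1 := by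
          unfold hit
          rw [filter_insert, if_pos hne]
          exact card_insert_le _ _
        omega
      · have h2 : hit τ (insert a ((τ a).image p)) S = hit τ ((τ a).image p) S := by
          unfold hit
          rw [filter_insert, if_neg hne]
        have h4 : (τ a ∩ S).card = 0 := by
          rw [not_nonempty_iff_eq_empty] at hne
          simp [hne]
        have h5 := (ind_of_small (n := n) h3 hn (empty_subset G) (by simp)
          (by simp [hit])).2.2 S hS
        rw [h2]
        omega
  rw [← mat_indep hgap h3 hn] at hind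
  let f : Fin n ≃ (τ a) := (Finset.equivFinOfCardEq hcard).symm
  refine ⟨ha, fun i => line G τ (f i), fun i => ⟨hΛ _, ha, (f i).2⟩, ?_⟩
  have hsub : ((insert a ((τ a).image p) : Finset α) : Set α) ⊆ ⋃ i, line G τ (f i) := by
    intro z hz
    simp only [coe_insert, coe_image, Set.mem_insert_iff, Set.mem_image, mem_coe] at hz
    simp only [Set.mem_iUnion]
    rcases hz with rfl | ⟨v, hv, rfl⟩
    · exact ⟨⟨0, by omega⟩, ha, (f _).2⟩
    · refine ⟨f.symm ⟨v, hv⟩, hp v, ?_⟩
      simp [hτp]
  have := hind.encard_le_eRk_of_subset hsub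
  rw [Set.encard_coe_eq_coe_finsetCard, hIc] at this
  simpa using this

end Pool.Agent.Lib.MP_66cbdd_co.Lower
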