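import Mathlib

/-!
A counting argument producing a sparse `n`-partite `n`-uniform hypergraph with many edges.
-/

namespace Pool.Agent.Lib.MP_66cbdd_co.Lower

open Finset

variable {V : Type*} [DecidableEq V] {n m : ℕ}

/-- The edge with coordinates `x`. -/
def edge (ι : Fin n × Fin m ↪ V) (x : Fin n → Fin m) : Finset V :=
  univ.image (fun t => ι (t, x t))

omit [DecidableEq V] in
lemma edge_inj (ι : Fin n × Fin m ↪ V) (x : Fin n → Fin m) :
    Function.Injective (fun t => ι (t, x t)) := by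
  intro s t h
  have := ι.injective h
  exact (Prod.ext_iff.1 this).1

lemma edge_card (ι : Fin n × Fin m ↪ V) (x : Fin n → Fin m) : (edge ι x).card = n := by
  rw [edge, card_image_of_injective _ (edge_inj ι x), card_univ, Fintype.card_fin]

lemma edge_inter_card (ι : Fin n × Fin m ↪ V) (x : Fin n → Fin m) (W : Finset V) :
    (edge ι x ∩ W).card = (univ.filter (fun t => ι (t, x t) ∈ W)).card := by
  rw [← card_image_of_injective _ (edge_inj ι x)]
  congr 1
  ext v
  simp only [edge, mem_inter, mem_image, mem_univ, true_and, mem_filter]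
  constructor
  · rintro ⟨⟨t, rfl⟩, h⟩; exact ⟨t, h, rfl⟩
  · rintro ⟨t, h, rfl⟩; exact ⟨⟨t, rfl⟩, h⟩

lemma sum_prod_ind (ι : Fin n × Fin m ↪ V) (W : Finset V) (p : ℝ) (hp : (W.card : ℝ) ≤ m * p)
    (R : Finset (Fin n)) :
    ∑ x : Fin n → Fin m, ∏ t ∈ R, (if ι (t, x t) ∈ W then (1 : ℝ) else 0) ≤
      (m : ℝ) ^ n * p ^ R.card := by
  have h1 : ∀ x : Fin n → Fin m, ∏ t ∈ R, (if ι (t, x t) ∈ W then (1 : ℝ) else 0) =
      ∏ t : Fin n, (if t ∈ R then (if ι (t, x t) ∈ W then (1 : ℝ) else 0) else 1) := by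
    intro x
    rw [prod_ite_mem, univ_inter]
  simp_rw [h1]
  have h2 := (prod_univ_sum (fun _ : Fin n => (univ : Finset (Fin m)))
    (fun t y => if t ∈ R then (if ι (t, y) ∈ W then (1 : ℝ) else 0) else 1)).symm
  rw [Fintype.piFinset_univ] at h2
  rw [h2]
  have h3 : (m : ℝ) ^ n * p ^ R.card = ∏ t : Fin n, ((m : ℝ) * (if t ∈ R then p else 1)) := by
    rw [prod_mul_distrib, prod_const, card_univ, Fintype.card_fin, prod_ite_mem, univ_inter,
      prod_const]
  rw [h3]
  refine prod_le_prod (fun t _ => sum_nonneg fun y _ => ?_) fun t _ => ?_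
  · split_ifs <;> norm_num
  · by_cases ht : t ∈ R
    · simp only [ht, if_true]
      rw [sum_boole]
      refine le_trans ?_ hp
      norm_cast
      refine card_le_card_of_injOn (fun y => ι (t, y)) ?_ ?_
      · intro y hy
        simpa using hy
      · intro y _ z _ h
        exact (Prod.ext_iff.1 (ι.injective h)).2
    · simp [ht]

lemma moment (ι : Fin n × Fin m ↪ V) (W : Finset V) (p lam : ℝ) (hp0 : 0 ≤ p)
    (hp : (W.card : ℝ) ≤ m * p) (hlam : 0 ≤ lam) (hpl : p * lam ≤ 1) :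
    ∑ x : Fin n → Fin m, lam ^ ((edge ι x ∩ W).card - 1) ≤
      (m : ℝ) ^ n * (1 + 2 ^ n * (lam * p ^ 2)) := by
  have h1 : ∀ x : Fin n → Fin m, lam ^ ((edge ι x ∩ W).card - 1) ≤
      1 + ∑ R ∈ (univ : Finset (Finset (Fin n))).filter (fun R => 2 ≤ R.card),
        lam ^ (R.card - 1) * ∏ t ∈ R, (if ι (t, x t) ∈ W then (1 : ℝ) else 0) := by
    intro x
    have hnn : ∀ R ∈ (univ : Finset (Finset (Fin n))).filter (fun R => 2 ≤ R.card),
        0 ≤ lam ^ (R.card - 1) * ∏ t ∈ R, (if ι (t, x t) ∈ W then (1 : ℝ) else 0) := by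
      intro R _
      refine mul_nonneg (pow_nonneg hlam _) (prod_nonneg fun t _ => ?_)
      split_ifs <;> norm_num
    rw [edge_inter_card]
    by_cases h2 : 2 ≤ (univ.filter (fun t => ι (t, x t) ∈ W)).card
    · have h3 := single_le_sum hnn (a := univ.filter (fun t => ι (t, x t) ∈ W))
        (mem_filter.2 ⟨mem_univ _, h2⟩)
      have h4 : ∏ t ∈ univ.filter (fun t => ι (t, x t) ∈ W),
          (if ι (t, x t) ∈ W then (1 : ℝ) else 0) = 1 := by
        refine prod_eq_one fun t ht => ?_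
        rw [if_pos (mem_filter.1 ht).2]
      rw [h4, mul_one] at h3
      linarith
    · have h3 : (univ.filter (fun t => ι (t, x t) ∈ W)).card - 1 = 0 := by omega
      rw [h3, pow_zero]
      have := sum_nonneg hnn
      linarith
  refine (sum_le_sum fun x _ => h1 x).trans ?_
  rw [sum_add_distrib, sum_comm, sum_const, card_univ, Fintype.card_fun, Fintype.card_fin,
    Fintype.card_fin, nsmul_eq_mul, mul_one, mul_add, mul_one]
  push_cast
  refine add_le_add le_rfl ?_
  have h5 : ∀ R ∈ (univ : Finset (Finset (Fin n))).filter (fun R => 2 ≤ R.card),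
      ∑ x : Fin n → Fin m, lam ^ (R.card - 1) *
        ∏ t ∈ R, (if ι (t, x t) ∈ W then (1 : ℝ) else 0) ≤ (m : ℝ) ^ n * (lam * p ^ 2) := by
    intro R hR
    have hR2 := (mem_filter.1 hR).2
    rw [← mul_sum]
    have h6 := sum_prod_ind ι W p hp R
    obtain ⟨r, hr⟩ : ∃ r, R.card = r + 2 := ⟨R.card - 2, by omega⟩
    rw [hr] at h6 ⊢
    have h7 : (p * lam) ^ r ≤ 1 := pow_le_one₀ (mul_nonneg hp0 hlam) hpl
    have h8 : 0 ≤ (m : ℝ) ^ n * (lam * p ^ 2) := by positivity
    calc lam ^ (r + 2 - 1) * ∑ x : Fin n → Fin m,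
          ∏ t ∈ R, (if ι (t, x t) ∈ W then (1 : ℝ) else 0)
        ≤ lam ^ (r + 2 - 1) * ((m : ℝ) ^ n * p ^ (r + 2)) :=
          mul_le_mul_of_nonneg_left h6 (pow_nonneg hlam _)
      _ = (m : ℝ) ^ n * (lam * p ^ 2) * (p * lam) ^ r := by
          rw [show r + 2 - 1 = r + 1 by omega]; ring
      _ ≤ (m : ℝ) ^ n * (lam * p ^ 2) * 1 := mul_le_mul_of_nonneg_left h7 h8
      _ = _ := mul_one _
  refine (sum_le_card_nsmul _ _ _ h5).trans ?_
  rw [nsmul_eq_mul]
  have h9 : (((univ : Finset (Finset (Fin n))).filter (fun R => 2 ≤ R.card)).card : ℝ) ≤ 2 ^ n := by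
    have := card_filter_le (univ : Finset (Finset (Fin n))) (fun R => 2 ≤ R.card)
    rw [card_univ, Fintype.card_finset, Fintype.card_fin] at this
    exact_mod_cast this
  have h8 : 0 ≤ (m : ℝ) ^ n * (lam * p ^ 2) := by positivity
  calc _ ≤ 2 ^ n * ((m : ℝ) ^ n * (lam * p ^ 2)) := mul_le_mul_of_nonneg_right h9 h8
    _ = _ := by ring

lemma sum_prod_erase {X : Type*} [Fintype X] [DecidableEq X] {N : ℕ} (i : Fin N)
    (F : X → X → ℝ) (B : ℝ) (hF : ∀ a x, 0 ≤ F a x) (hB : ∀ a, ∑ x, F a x ≤ B)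
    (hX : (Fintype.card X : ℝ) ≤ B) (hX0 : 0 < Fintype.card X) :
    ∑ ω : Fin N → X, ∏ e ∈ univ.erase i, F (ω i) (ω e) ≤ B ^ N := by
  have hc : (0 : ℝ) < Fintype.card X := by exact_mod_cast hX0
  have h1 : ∀ a : X, ∑ ω : Fin N → X, ∏ e : Fin N,
      (if e = i then (if ω e = a then (Fintype.card X : ℝ) else 0) else F a (ω e)) ≤ B ^ N := by
    intro a
    have h2 := (prod_univ_sum (fun _ : Fin N => (univ : Finset X))
      (fun e x => if e = i then (if x = a then (Fintype.card X : ℝ) else 0) else F a x)).symm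
    rw [Fintype.piFinset_univ] at h2
    rw [h2]
    have h3 : B ^ N = ∏ _e : Fin N, B := by
      rw [prod_const, card_univ, Fintype.card_fin]
    rw [h3]
    refine prod_le_prod (fun e _ => sum_nonneg fun x _ => ?_) fun e _ => ?_
    · split_ifs
      · exact hc.le
      · exact le_rfl
      · exact hF _ _
    · by_cases he : e = i
      · simp only [he, if_true]
        rw [sum_ite_eq']
        simpa using hX
      · simp only [he, if_false]
        exact hB a
  have h4 : ∀ ω : Fin N → X, ∑ a : X, ∏ e : Fin N,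
      (if e = i then (if ω e = a then (Fintype.card X : ℝ) else 0) else F a (ω e)) =
      Fintype.card X * ∏ e ∈ univ.erase i, F (ω i) (ω e) := by
    intro ω
    have h5 : ∀ a : X, ∏ e : Fin N,
        (if e = i then (if ω e = a then (Fintype.card X : ℝ) else 0) else F a (ω e)) =
        (if ω i = a then (Fintype.card X : ℝ) else 0) * ∏ e ∈ univ.erase i, F a (ω e) := by
      intro a
      rw [← mul_prod_erase univ _ (mem_univ i), if_pos rfl]
      congr 1
      refine prod_congr rfl fun e he => ?_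
      rw [if_neg (ne_of_mem_erase he)]
    simp_rw [h5, ite_mul, zero_mul]
    rw [sum_ite_eq]
    simp
  have h6 := sum_le_sum (s := univ) fun a _ => h1 a
  rw [sum_comm] at h6
  simp_rw [h4] at h6
  rw [← mul_sum, sum_const, card_univ, nsmul_eq_mul] at h6
  exact le_of_mul_le_mul_left h6 hc

/-- Edge `i` is bad when some small set of vertices around it carries too much excess. -/
def Bad (ι : Fin n × Fin m ↪ V) (K M : ℕ) {N : ℕ} (ω : Fin N → Fin n → Fin m) (i : Fin N) : Prop :=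
  ∃ T : Finset V, T.card ≤ M ∧ (2 * K - 1) * T.card <
    K * ∑ e ∈ univ.erase i, ((edge ι (ω e) ∩ (edge ι (ω i) ∪ T)).card - 1)

open Classical in
lemma bad_le [Fintype V] (ι : Fin n × Fin m ↪ V) (K M : ℕ) {N : ℕ} (ω : Fin N → Fin n → Fin m)
    (i : Fin N) (μ : ℝ) (hμ : 1 ≤ μ) (hL0 : 0 < Fintype.card V)
    (hL : (Fintype.card V : ℝ) ≤ μ ^ (2 * K - 1)) :
    (if Bad ι K M ω i then (1 : ℝ) else 0) ≤
      ∑ T ∈ (univ : Finset (Finset V)).filter (fun T => T.card ≤ M),
        μ⁻¹ * ((Fintype.card V : ℝ)⁻¹) ^ T.card *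
        ∏ e ∈ univ.erase i, (μ ^ K) ^ ((edge ι (ω e) ∩ (edge ι (ω i) ∪ T)).card - 1) := by
  have hμ0 : 0 < μ := by linarith
  have hc : (0 : ℝ) < Fintype.card V := by exact_mod_cast hL0
  have hnn : ∀ T ∈ (univ : Finset (Finset V)).filter (fun T => T.card ≤ M),
      0 ≤ μ⁻¹ * ((Fintype.card V : ℝ)⁻¹) ^ T.card *
        ∏ e ∈ univ.erase i, (μ ^ K) ^ ((edge ι (ω e) ∩ (edge ι (ω i) ∪ T)).card - 1) := by
    intro T _
    positivity
  split_ifs with hb
  · obtain ⟨T, hT, hlt⟩ := hb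
    refine le_trans ?_ (single_le_sum hnn (mem_filter.2 ⟨mem_univ T, hT⟩))
    rw [prod_pow_eq_pow_sum, ← pow_mul]
    have h1 : μ ^ ((2 * K - 1) * T.card + 1) ≤
        μ ^ (K * ∑ e ∈ univ.erase i, ((edge ι (ω e) ∩ (edge ι (ω i) ∪ T)).card - 1)) :=
      pow_le_pow_right₀ hμ hlt
    have h2 : (Fintype.card V : ℝ) ^ T.card ≤ μ ^ ((2 * K - 1) * T.card) := by
      rw [pow_mul]
      exact pow_le_pow_left₀ hc.le hL _
    have h3 : (1 : ℝ) = μ⁻¹ * ((Fintype.card V : ℝ)⁻¹) ^ T.card *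
        ((Fintype.card V : ℝ) ^ T.card * μ) := by
      field_simp
      rw [one_div, inv_pow, inv_mul_cancel₀ (by positivity)]
    rw [h3]
    refine mul_le_mul_of_nonneg_left ?_ (by positivity)
    refine le_trans ?_ h1
    rw [pow_succ]
    exact mul_le_mul_of_nonneg_right h2 hμ0.le
  · exact sum_nonneg hnn

omit [DecidableEq V] in
lemma sum_inv_pow_le [Fintype V] (hL0 : 0 < Fintype.card V) :
    ∑ T : Finset V, ((Fintype.card V : ℝ)⁻¹) ^ T.card ≤ 3 := by
  have hc : (0 : ℝ) < Fintype.card V := by exact_mod_cast hL0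
  have h1 := prod_one_add (s := (univ : Finset V)) (f := fun _ => (Fintype.card V : ℝ)⁻¹)
  simp only [prod_const, card_univ, powerset_univ] at h1
  rw [← h1]
  have h2 : 1 + (Fintype.card V : ℝ)⁻¹ ≤ Real.exp (Fintype.card V : ℝ)⁻¹ := by
    have := Real.add_one_le_exp (Fintype.card V : ℝ)⁻¹
    linarith
  calc _ ≤ (Real.exp (Fintype.card V : ℝ)⁻¹) ^ Fintype.card V :=
        pow_le_pow_left₀ (by positivity) h2 _
    _ = Real.exp 1 := by
        rw [← Real.exp_nat_mul, mul_inv_cancel₀ hc.ne']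
    _ ≤ 3 := by
        have := Real.exp_one_lt_d9
        linarith

open Classical in
lemma exists_few_bad [Fintype V] (ι : Fin n × Fin m ↪ V) (K M N : ℕ) (μ : ℝ) (hμ : 1 ≤ μ)
    (hm : 0 < m) (hL0 : 0 < Fintype.card V) (hL : (Fintype.card V : ℝ) ≤ μ ^ (2 * K - 1))
    (hw : ((n + M : ℕ) : ℝ) * μ ^ K ≤ m) (hN : (N : ℝ) * μ ^ K ≤ (m : ℝ) ^ 2)
    (hμ' : 6 * Real.exp (2 ^ n * ((n + M : ℕ) : ℝ) ^ 2) ≤ μ) :
    ∃ ω : Fin N → Fin n → Fin m, 2 * (univ.filter (fun i => Bad ι K M ω i)).card ≤ N := by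
  have hμ0 : 0 < μ := by linarith
  have hm' : (0 : ℝ) < m := by exact_mod_cast hm
  set w : ℝ := ((n + M : ℕ) : ℝ) with hwdef
  have hw0 : 0 ≤ w := by positivity
  set p : ℝ := w / m with hpdef
  have hp0 : 0 ≤ p := by positivity
  set ε : ℝ := 2 ^ n * (μ ^ K * p ^ 2) with hε
  have hε0 : 0 ≤ ε := by positivity
  set B : ℝ := (m : ℝ) ^ n * (1 + ε) with hB
  have hXc : (Fintype.card (Fin n → Fin m) : ℝ) = (m : ℝ) ^ n := by
    rw [Fintype.card_fun, Fintype.card_fin, Fintype.card_fin]; push_cast; rfl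
  have hX0 : 0 < Fintype.card (Fin n → Fin m) := by
    rw [Fintype.card_fun, Fintype.card_fin, Fintype.card_fin]; positivity
  have hBN : B ^ N ≤ ((m : ℝ) ^ n) ^ N * Real.exp (2 ^ n * w ^ 2) := by
    rw [hB, mul_pow]
    refine mul_le_mul_of_nonneg_left ?_ (by positivity)
    have h1 : 1 + ε ≤ Real.exp ε := by
      have := Real.add_one_le_exp ε
      linarith
    calc (1 + ε) ^ N ≤ (Real.exp ε) ^ N := pow_le_pow_left₀ (by positivity) h1 _
      _ = Real.exp (N * ε) := by rw [← Real.exp_nat_mul]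
      _ ≤ _ := by
        refine Real.exp_le_exp.2 ?_
        have h2 : (N : ℝ) * ε = 2 ^ n * w ^ 2 * ((N : ℝ) * μ ^ K / (m : ℝ) ^ 2) := by
          rw [hε, hpdef]; field_simp
        rw [h2]
        have h3 : (N : ℝ) * μ ^ K / (m : ℝ) ^ 2 ≤ 1 := by
          rw [div_le_one (by positivity)]; exact hN
        calc _ ≤ 2 ^ n * w ^ 2 * 1 := mul_le_mul_of_nonneg_left h3 (by positivity)
          _ = _ := mul_one _
  have hi : ∀ i : Fin N, ∑ ω : Fin N → Fin n → Fin m, (if Bad ι K M ω i then (1 : ℝ) else 0) ≤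
      ((m : ℝ) ^ n) ^ N / 2 := by
    intro i
    refine (sum_le_sum fun ω _ => bad_le ι K M ω i μ hμ hL0 hL).trans ?_
    rw [sum_comm]
    have h1 : ∀ T ∈ (univ : Finset (Finset V)).filter (fun T => T.card ≤ M),
        ∑ ω : Fin N → Fin n → Fin m, μ⁻¹ * ((Fintype.card V : ℝ)⁻¹) ^ T.card *
        ∏ e ∈ univ.erase i, (μ ^ K) ^ ((edge ι (ω e) ∩ (edge ι (ω i) ∪ T)).card - 1) ≤
        μ⁻¹ * B ^ N * ((Fintype.card V : ℝ)⁻¹) ^ T.card := by
      intro T hT
      have hT' := (mem_filter.1 hT).2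
      rw [← mul_sum]
      have h2 := sum_prod_erase i
        (fun a x => (μ ^ K) ^ ((edge ι x ∩ (edge ι a ∪ T)).card - 1)) B
        (fun a x => by positivity)
        (fun a => by
          refine moment ι _ p (μ ^ K) hp0 ?_ (by positivity) ?_
          · have h3 : (edge ι a ∪ T).card ≤ n + M := by
              refine (card_union_le _ _).trans ?_
              rw [edge_card]
              omega
            rw [hpdef, mul_div_cancel₀ _ hm'.ne', hwdef]
            exact_mod_cast h3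
          · rw [hpdef, div_mul_eq_mul_div, div_le_one hm']
            exact hw)
        (by rw [hXc, hB]; nlinarith [pow_pos hm' n]) hX0
      calc _ ≤ μ⁻¹ * ((Fintype.card V : ℝ)⁻¹) ^ T.card * B ^ N :=
            mul_le_mul_of_nonneg_left h2 (by positivity)
        _ = _ := by ring
    refine (sum_le_sum h1).trans ?_
    rw [← mul_sum]
    have h4 : ∑ T ∈ (univ : Finset (Finset V)).filter (fun T => T.card ≤ M),
        ((Fintype.card V : ℝ)⁻¹) ^ T.card ≤ 3 := by
      refine le_trans ?_ (sum_inv_pow_le hL0)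
      exact sum_le_sum_of_subset_of_nonneg (filter_subset _ _) fun _ _ _ => by positivity
    have hB0 : 0 ≤ B ^ N := by positivity
    have h5 : μ⁻¹ * Real.exp (2 ^ n * w ^ 2) ≤ 1 / 6 := by
      rw [inv_mul_le_iff₀ hμ0]
      linarith
    calc _ ≤ μ⁻¹ * B ^ N * 3 := mul_le_mul_of_nonneg_left h4 (by positivity)
      _ ≤ μ⁻¹ * (((m : ℝ) ^ n) ^ N * Real.exp (2 ^ n * w ^ 2)) * 3 := by gcongr
      _ = ((m : ℝ) ^ n) ^ N * 3 * (μ⁻¹ * Real.exp (2 ^ n * w ^ 2)) := by ring
      _ ≤ ((m : ℝ) ^ n) ^ N * 3 * (1 / 6) := mul_le_mul_of_nonneg_left h5 (by positivity)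
      _ = _ := by ring
  have htot : ∑ ω : Fin N → Fin n → Fin m, ((univ.filter (fun i => Bad ι K M ω i)).card : ℝ) ≤
      ∑ _ω : Fin N → Fin n → Fin m, (N : ℝ) / 2 := by
    have h1 : ∀ ω : Fin N → Fin n → Fin m, ((univ.filter (fun i => Bad ι K M ω i)).card : ℝ) =
        ∑ i : Fin N, (if Bad ι K M ω i then (1 : ℝ) else 0) := by
      intro ω
      rw [sum_boole]
    simp_rw [h1]
    rw [sum_comm]
    refine (sum_le_sum fun i _ => hi i).trans ?_
    rw [sum_const, sum_const, card_univ, card_univ, Fintype.card_fin, Fintype.card_fun,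
      Fintype.card_fin, nsmul_eq_mul, nsmul_eq_mul]
    push_cast
    rw [hXc]
    apply le_of_eq
    ring
  have : Nonempty (Fin m) := ⟨⟨0, hm⟩⟩
  obtain ⟨ω, -, hω⟩ := exists_le_of_sum_le univ_nonempty htot
  refine ⟨ω, ?_⟩
  have : (2 : ℝ) * ((univ.filter (fun i => Bad ι K M ω i)).card : ℝ) ≤ N := by linarith
  exact_mod_cast this

end Pool.Agent.Lib.MP_66cbdd_co.Lower
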