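import Mathlib
import Pool.Agent.Lib.MP_66cbdd_co.Defs
import Pool.Agent.Lib.MP_66cbdd_co.LowerMatroid
import Pool.Agent.Lib.MP_66cbdd_co.LowerRandom

/-!
The lower bound `L ^ (3 / 2 - e)` for the number of `n`-dimensional joints.
-/

namespace Pool.Agent.Lib.MP_66cbdd_co.Lower

open Finset

lemma exists_config {V ι : Type} [Fintype V] [DecidableEq V] [Fintype ι] [DecidableEq ι]
    (n K : ℕ) (hn : 2 ≤ n) (hK : 1 ≤ K) (A : Finset ι) (h : ι → Finset V)
    (hcard : ∀ i, (h i).card = n)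
    (hgood : ∀ a ∈ A, ∀ T : Finset V, T.card ≤ 2 * (n + K * n) →
      K * ∑ e ∈ univ.erase a, ((h e ∩ (h a ∪ T)).card - 1) ≤ (2 * K - 1) * T.card) :
    ∃ (M : Matroid ℕ) (Λ : Finset (Set ℕ)), M.E.Finite ∧ IsSimple M ∧ (∀ l ∈ Λ, IsLine M l) ∧
      Λ.card = Fintype.card V ∧ A.card ≤ (joints M n Λ).ncard := by
  classical
  obtain ⟨enc, henc⟩ := exists_injective_nat (ι ⊕ (V × Bool))
  let τ0 : ι ⊕ (V × Bool) → Finset V := Sum.elim h (fun x => {x.1})
  let τ : ℕ → Finset V := Function.extend enc τ0 (fun _ => ∅)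
  have hτ : ∀ x, τ (enc x) = τ0 x := fun x => henc.extend_apply _ _ x
  let G : Finset ℕ := (A.disjSum (univ : Finset (V × Bool))).image enc
  have hexc : ∀ S : Finset V, exc G τ S = ∑ e ∈ A, ((h e ∩ S).card - 1) := by
    intro S
    unfold exc
    rw [sum_image (fun x _ y _ hxy => henc hxy), sum_disjSum]
    simp only [hτ, τ0, Sum.elim_inl, Sum.elim_inr]
    rw [add_eq_left]
    refine sum_eq_zero fun x _ => ?_
    have : (({x.1} : Finset V) ∩ S).card ≤ 1 := by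
      calc _ ≤ ({x.1} : Finset V).card := card_le_card inter_subset_left
        _ = 1 := card_singleton _
    omega
  have hkey : ∀ a ∈ A, ∀ S : Finset V, S.card ≤ 2 * (n + K * n) → ∃ Y σ : ℕ,
      exc G τ S ≤ ((h a ∩ S).card - 1) + Y ∧ K * Y ≤ (2 * K - 1) * σ ∧
        (h a ∩ S).card + σ = S.card := by
    intro a ha S hS
    refine ⟨∑ e ∈ univ.erase a, ((h e ∩ (h a ∪ (S \ h a))).card - 1), (S \ h a).card, ?_,
      hgood a ha _ ((card_le_card sdiff_subset).trans hS), ?_⟩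
    · rw [hexc, ← add_sum_erase _ _ ha]
      refine Nat.add_le_add_left ?_ _
      calc ∑ e ∈ A.erase a, ((h e ∩ S).card - 1)
          ≤ ∑ e ∈ A.erase a, ((h e ∩ (h a ∪ (S \ h a))).card - 1) := by
            refine sum_le_sum fun e _ => Nat.sub_le_sub_right (card_le_card ?_) 1
            refine inter_subset_inter_left ?_
            rw [union_sdiff_self_eq_union]
            exact subset_union_right
        _ ≤ _ := sum_le_sum_of_subset (erase_subset_erase _ (subset_univ _))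
    · rw [inter_comm, add_comm, card_sdiff_add_card_inter]
  have hY : ∀ Y σ : ℕ, K * Y ≤ (2 * K - 1) * σ → K * Y + σ ≤ K * (2 * σ) := by
    intro Y σ hh
    obtain ⟨k, rfl⟩ : ∃ k, K = k + 1 := ⟨K - 1, by omega⟩
    rw [show 2 * (k + 1) - 1 = 2 * k + 1 by omega] at hh
    nlinarith
  have hstar : ∀ a ∈ A, ∀ S : Finset V, S.card ≤ n + K * n → (h a ∩ S).Nonempty →
      (h a ∩ S).card + 1 + exc G τ S ≤ 2 * S.card := by
    intro a ha S hS hne
    obtain ⟨Y, σ, h1, h2, h3⟩ := hkey a ha S (by omega)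
    have h4 := hY Y σ h2
    have h5 : Y ≤ 2 * σ := Nat.le_of_mul_le_mul_left (by omega : K * Y ≤ K * (2 * σ)) (by omega)
    have h6 := hne.card_pos
    omega
  have hex : ∀ S : Finset V, exc G τ S = 0 ∨ ∃ a ∈ A, 2 ≤ (h a ∩ S).card := by
    intro S
    by_contra hcon
    push Not at hcon
    apply hcon.1
    rw [hexc]
    refine sum_eq_zero fun e he => ?_
    have := hcon.2 e he
    omega
  have h3 : Three G τ (n + K * n) := by
    intro S h1 h2
    rcases hex S with h0 | ⟨a, ha, h0⟩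
    · omega
    · have := hstar a ha S h2 (card_pos.1 (by omega))
      omega
  have hgap : Gap G τ n (n + K * n) := by
    intro S h1 h2
    rcases hex S with h0 | ⟨a, ha, h0⟩
    · omega
    · obtain ⟨Y, σ, h4, h5, h6⟩ := hkey a ha S h2
      have h7 := hY Y σ h5
      have h8 : (h a ∩ S).card ≤ n := by
        rw [← hcard a]; exact card_le_card inter_subset_left
      have h9 : K * (Y + n) ≤ K * (2 * σ) := by
        rw [mul_add]; omega
      have h10 : Y + n ≤ 2 * σ := Nat.le_of_mul_le_mul_left h9 (by omega)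
      omega
  have hpG : ∀ v b, enc (Sum.inr (v, b)) ∈ G := fun v b =>
    mem_image_of_mem _ (inr_mem_disjSum.2 (mem_univ _))
  have hpτ : ∀ v b, τ (enc (Sum.inr (v, b))) = {v} := fun v b => hτ _
  have hlinj : Function.Injective (line G τ) := by
    intro v w hvw
    have h1 : enc (Sum.inr (v, true)) ∈ line G τ v := ⟨hpG _ _, by simp [hpτ]⟩
    rw [hvw] at h1
    have h2 := h1.2
    rw [hpτ, mem_singleton] at h2
    exact h2.symm
  refine ⟨mat hgap h3 hn, univ.image (line G τ), ?_, mat_simple hgap h3 hn, ?_, ?_, ?_⟩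
  · rw [mat_E]; exact G.finite_toSet
  · intro l hl
    obtain ⟨v, -, rfl⟩ := mem_image.1 hl
    refine mat_line hgap h3 hn (by omega) v (hpG v true) (hpG v false) ?_ (hpτ _ _) (hpτ _ _)
    intro hh
    have := henc hh
    simp at this
  · rw [card_image_of_injective _ hlinj, card_univ]
  · have hsub : ((A.image (fun a => enc (Sum.inl a)) : Finset ℕ) : Set ℕ) ⊆
        joints (mat hgap h3 hn) n (univ.image (line G τ)) := by
      intro x hx
      obtain ⟨a, ha, rfl⟩ := mem_image.1 (mem_coe.1 hx)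
      have hτa : τ (enc (Sum.inl a)) = h a := hτ _
      refine mat_joint hgap h3 hn (fun v => enc (Sum.inr (v, true))) (fun v => hpG v true)
        (fun v => hpτ v true) _ (fun v => mem_image_of_mem _ (mem_univ v))
        (mem_image_of_mem _ (inl_mem_disjSum.2 ha)) (by rw [hτa, hcard]) ?_
      rw [hτa]
      exact hstar a ha
    have hfin : (joints (mat hgap h3 hn) n (univ.image (line G τ))).Finite :=
      G.finite_toSet.subset fun x hx => hx.1
    have h1 := Set.ncard_le_ncard hsub hfin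
    rw [Set.ncard_coe_finset, card_image_of_injective _
      (fun a b hab => Sum.inl_injective (henc hab))] at h1
    exact h1

lemma exists_of_mu (n k : ℕ) (hn : 2 ≤ n) : ∃ C : ℝ, ∀ (L : ℕ) (μ : ℝ),
    μ ^ (2 * k + 3) = L → C ≤ μ →
    ∃ (M : Matroid ℕ) (Λ : Finset (Set ℕ)), M.E.Finite ∧ IsSimple M ∧ (∀ l ∈ Λ, IsLine M l) ∧
      Λ.card = L ∧ μ ^ (3 * k + 3) ≤ (joints M n Λ).ncard := by
  classical
  set w : ℕ := n + 2 * (n + (k + 2) * n) with hw
  refine ⟨16 * (n : ℝ) ^ 2 + 2 * n * w + 6 * Real.exp (2 ^ n * (w : ℝ) ^ 2), ?_⟩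
  intro L μ hL hC
  have hn' : (2 : ℝ) ≤ n := by exact_mod_cast hn
  have hw1 : (1 : ℝ) ≤ w := by
    have : 1 ≤ w := by omega
    exact_mod_cast this
  have he := Real.exp_pos (2 ^ n * (w : ℝ) ^ 2)
  have hA : 16 * (n : ℝ) ^ 2 ≤ μ := by nlinarith
  have hB : 2 * (n : ℝ) * w ≤ μ := by nlinarith
  have hC' : 6 * Real.exp (2 ^ n * (w : ℝ) ^ 2) ≤ μ := by nlinarith
  have hμ : 1 ≤ μ := by nlinarith
  have hμ0 : 0 < μ := by linarith
  have hμL : μ ≤ L := by
    rw [← hL]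
    calc μ = μ ^ 1 := (pow_one _).symm
      _ ≤ _ := pow_le_pow_right₀ hμ (by omega)
  have hnL : n ≤ L := by
    have : (n : ℝ) ≤ L := by nlinarith
    exact_mod_cast this
  set m : ℕ := L / n with hm
  have hm0 : 0 < m := Nat.div_pos hnL (by omega)
  have hnm : n * m ≤ L := Nat.mul_div_le L n
  have hLm : (L : ℝ) ≤ 2 * n * m := by
    have h1 : L < n * (m + 1) := Nat.lt_mul_div_succ L (by omega)
    have h2 : L ≤ 2 * n * m := by nlinarith
    exact_mod_cast h2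
  let ι : Fin n × Fin m ↪ Fin L := finProdFinEquiv.toEmbedding.trans (Fin.castLEEmb hnm)
  have hlam : 0 < μ ^ (k + 2) := by positivity
  have hwm : (w : ℝ) * μ ^ (k + 2) ≤ m := by
    have h1 : 2 * (n : ℝ) * (w * μ ^ (k + 2)) ≤ 2 * n * m := by
      calc 2 * (n : ℝ) * (w * μ ^ (k + 2)) = (2 * n * w) * μ ^ (k + 2) := by ring
        _ ≤ μ * μ ^ (k + 2) := mul_le_mul_of_nonneg_right hB hlam.le
        _ = μ ^ (k + 3) := by ring
        _ ≤ μ ^ (2 * k + 3) := pow_le_pow_right₀ hμ (by omega)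
        _ = L := hL
        _ ≤ _ := hLm
    exact le_of_mul_le_mul_left h1 (by linarith)
  have hm1 : (1 : ℝ) ≤ m := by exact_mod_cast hm0
  have hlm : μ ^ (k + 2) ≤ m := by nlinarith
  set N : ℕ := ⌊(m : ℝ) ^ 2 / μ ^ (k + 2)⌋₊ with hN
  have hN1 : (N : ℝ) * μ ^ (k + 2) ≤ (m : ℝ) ^ 2 := by
    have := Nat.floor_le (a := (m : ℝ) ^ 2 / μ ^ (k + 2)) (by positivity)
    rwa [le_div_iff₀ hlam] at this
  have hN2 : (m : ℝ) ^ 2 ≤ 2 * N * μ ^ (k + 2) := by
    have h1 := Nat.lt_floor_add_one ((m : ℝ) ^ 2 / μ ^ (k + 2))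
    rw [← hN, div_lt_iff₀ hlam] at h1
    have h2 : 1 ≤ N := by
      rw [hN, Nat.one_le_floor_iff, le_div_iff₀ hlam]
      nlinarith
    have h3 : (1 : ℝ) ≤ N := by exact_mod_cast h2
    nlinarith
  obtain ⟨ω, hω⟩ := exists_few_bad ι (k + 2) (2 * (n + (k + 2) * n)) N μ hμ hm0
    (by rw [Fintype.card_fin]; omega)
    (by rw [Fintype.card_fin, show 2 * (k + 2) - 1 = 2 * k + 3 by omega, hL]) hwm hN1 hC'
  obtain ⟨M, Λ, h1, h2, h3, h4, h5⟩ := exists_config n (k + 2) hn (by omega)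
    (univ.filter (fun i => ¬ Bad ι (k + 2) (2 * (n + (k + 2) * n)) ω i))
    (fun i => edge ι (ω i)) (fun i => edge_card ι _) (by
      intro a ha T hT
      have := (mem_filter.1 ha).2
      unfold Bad at this
      push Not at this
      exact this T hT)
  refine ⟨M, Λ, h1, h2, h3, by rw [h4, Fintype.card_fin], ?_⟩
  have h6 := card_filter_add_card_filter_not (s := (univ : Finset (Fin N)))
    (fun i => Bad ι (k + 2) (2 * (n + (k + 2) * n)) ω i)
  rw [card_univ, Fintype.card_fin] at h6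
  have h7 : N ≤ 2 * (joints M n Λ).ncard := by omega
  have h8 : (N : ℝ) ≤ 2 * (joints M n Λ).ncard := by exact_mod_cast h7
  have h9 : (16 * (n : ℝ) ^ 2) * μ ^ (3 * k + 3) * μ ^ (k + 2) ≤
      (16 * (n : ℝ) ^ 2) * (joints M n Λ).ncard * μ ^ (k + 2) := by
    calc (16 * (n : ℝ) ^ 2) * μ ^ (3 * k + 3) * μ ^ (k + 2)
        ≤ μ * μ ^ (3 * k + 3) * μ ^ (k + 2) := by gcongr
      _ = (μ ^ (2 * k + 3)) ^ 2 := by ring
      _ = (L : ℝ) ^ 2 := by rw [hL]
      _ ≤ (2 * n * m) ^ 2 := by gcongr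
      _ = 4 * (n : ℝ) ^ 2 * (m : ℝ) ^ 2 := by ring
      _ ≤ 4 * (n : ℝ) ^ 2 * (2 * N * μ ^ (k + 2)) := by gcongr
      _ ≤ 4 * (n : ℝ) ^ 2 * (2 * (2 * (joints M n Λ).ncard) * μ ^ (k + 2)) := by gcongr
      _ = _ := by ring
  have h10 := le_of_mul_le_mul_right h9 hlam
  exact le_of_mul_le_mul_left h10 (by positivity)

theorem lower (n : ℕ) (hn : 3 ≤ n) (e : ℝ) (he : 0 < e) : ∃ L0 : ℕ, ∀ L ≥ L0,
    ∃ (M : Matroid ℕ) (Λ : Finset (Set ℕ)), M.E.Finite ∧ IsSimple M ∧ (∀ l ∈ Λ, IsLine M l) ∧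
      Λ.card = L ∧ (L : ℝ) ^ ((3 : ℝ) / 2 - e) ≤ (joints M n Λ).ncard := by
  obtain ⟨k, hk⟩ := exists_nat_ge (1 / e)
  obtain ⟨C, hC⟩ := exists_of_mu n k (by omega)
  set D : ℝ := max C 1 with hD
  have hD1 : 1 ≤ D := le_max_right _ _
  refine ⟨⌈D ^ (2 * k + 3)⌉₊, fun L hL => ?_⟩
  have hL' : D ^ (2 * k + 3) ≤ L := Nat.ceil_le.1 hL
  have hL1 : (1 : ℝ) ≤ L := (one_le_pow₀ hD1).trans hL'
  set μ : ℝ := (L : ℝ) ^ (((2 * k + 3 : ℕ) : ℝ)⁻¹) with hμ
  have hμL : μ ^ (2 * k + 3) = L := Real.rpow_inv_natCast_pow (by linarith) (by omega)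
  have hμ0 : 0 ≤ μ := by positivity
  have hDμ : D ≤ μ := by
    rw [← hμL] at hL'
    exact le_of_pow_le_pow_left₀ (by omega) hμ0 hL'
  obtain ⟨M, Λ, h1, h2, h3, h4, h5⟩ := hC L μ hμL ((le_max_left _ _).trans hDμ)
  refine ⟨M, Λ, h1, h2, h3, h4, le_trans ?_ h5⟩
  rw [hμ, ← Real.rpow_natCast, ← Real.rpow_mul (by linarith)]
  refine Real.rpow_le_rpow_of_exponent_le hL1 ?_
  have hk' : 1 ≤ k * e := by
    rwa [div_le_iff₀ he] at hk
  have hk0 : (0 : ℝ) ≤ k := by positivity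
  rw [inv_mul_eq_div, le_div_iff₀ (by positivity)]
  push_cast
  nlinarith

end Pool.Agent.Lib.MP_66cbdd_co.Lower
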