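import Pool.Agent.Lib.MP_66cbdd_co.Defs

namespace Pool.Agent.Lib.MP_66cbdd_co

open Finset

variable {α : Type*}

theorem line_subset_closure {M : Matroid α} (hM : IsSimple M) {l X : Set α} (hl : IsLine M l)
    {x y : α} (hxy : x ≠ y) (hx : x ∈ l) (hy : y ∈ l) (hx' : x ∈ M.closure X)
    (hy' : y ∈ M.closure X) : l ⊆ M.closure X := by
  have hE := hl.1.subset_ground
  have hI : M.Indep {x, y} := hM x (hE hx) y (hE hy)
  have hsub : ({x, y} : Set α) ⊆ l := by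
    intro z hz
    rcases hz with rfl | rfl
    · exact hx
    · exact hy
  have hr : M.eRk {x, y} = 2 := by
    rw [hI.eRk_eq_encard, Set.encard_pair hxy]
  have hfin : M.IsRkFinite {x, y} := by
    rw [← Matroid.eRk_ne_top_iff, hr]; decide
  have hcl := hfin.closure_eq_closure_of_subset_of_eRk_ge_eRk hsub (by rw [hr, hl.2])
  have h1 : l ⊆ M.closure {x, y} := by
    rw [hcl]; exact M.subset_closure l hE
  refine h1.trans ?_
  have h2 : ({x, y} : Set α) ⊆ M.closure X := by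
    intro z hz
    rcases hz with rfl | rfl
    · exact hx'
    · exact hy'
  simpa using M.closure_subset_closure h2

open Classical in
theorem prune (σ : α → Finset (Set α)) (d : ℕ) :
    ∀ (k : ℕ) (Λ : Finset (Set α)) (P : Finset α), Λ.card = k → (∀ x ∈ P, σ x ⊆ Λ) →
      d * Λ.card < P.card →
      ∃ P' ⊆ P, P'.Nonempty ∧ ∀ x ∈ P', ∀ l ∈ σ x, d + 1 ≤ #{y ∈ P' | l ∈ σ y} := by
  intro k
  induction k with
  | zero =>
    intro Λ P hk hσ hd
    refine ⟨P, le_rfl, card_pos.mp (by omega), fun x hx l hl => ?_⟩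
    have := hσ x hx hl
    rw [card_eq_zero.mp hk] at this
    simp at this
  | succ k ih =>
    intro Λ P hk hσ hd
    by_cases h : ∀ x ∈ P, ∀ l ∈ σ x, d + 1 ≤ #{y ∈ P | l ∈ σ y}
    · exact ⟨P, le_rfl, card_pos.mp (by omega), h⟩
    push Not at h
    obtain ⟨x, hx, l, hl, hlt⟩ := h
    have hlΛ := hσ x hx hl
    have hc : (Λ.erase l).card = k := by rw [card_erase_of_mem hlΛ]; omega
    have hsplit := card_filter_add_card_filter_not (s := P) (fun y => l ∈ σ y)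
    obtain ⟨P', hP', hne, hdeg⟩ := ih (Λ.erase l) {y ∈ P | ¬ l ∈ σ y} hc
      (fun y hy z hz => by
        rw [mem_filter] at hy
        exact mem_erase.mpr ⟨fun h => hy.2 (h ▸ hz), hσ y hy.1 hz⟩)
      (by rw [hc]; rw [hk] at hd; nlinarith)
    exact ⟨P', hP'.trans (filter_subset _ _), hne, hdeg⟩

open Classical in
/-- A pruned configuration of joints. -/
structure Conf (M : Matroid α) (n D : ℕ) (Λ : Finset (Set α)) (P : Finset α)
    (σ : α → Finset (Set α)) : Prop where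
  simple : IsSimple M
  line : ∀ l ∈ Λ, IsLine M l
  sub : ∀ x ∈ P, σ x ⊆ Λ
  card : ∀ x ∈ P, (σ x).card ≤ n
  mem : ∀ x ∈ P, ∀ l ∈ σ x, x ∈ l
  out : ∀ x ∈ P, ∀ X : Set α, M.eRk X ≤ n → ∃ l ∈ σ x, ¬ l ⊆ M.closure X
  deg : ∀ x ∈ P, ∀ l ∈ σ x, D ≤ #{y ∈ P | l ∈ σ y}

section
open Classical
variable {M : Matroid α} {n D : ℕ} {Λ : Finset (Set α)} {P : Finset α} {σ : α → Finset (Set α)}

theorem Conf.count_flat (C : Conf M n D Λ P σ) {X : Set α} (hX : M.eRk X ≤ n) :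
    #{x ∈ P | x ∈ M.closure X} ≤ Λ.card := by
  choose! h hh using fun x hx => C.out x hx X hX
  refine card_le_card_of_injOn h (fun x hx => ?_) (fun x hx y hy hxy => ?_)
  · have hx := (mem_filter.mp hx).1
    exact C.sub x hx (hh x hx).1
  · have hx' := mem_filter.mp hx
    have hy' := mem_filter.mp hy
    by_contra hne
    exact (hh x hx'.1).2 (line_subset_closure C.simple (C.line _ (C.sub x hx'.1 (hh x hx'.1).1))
      hne (C.mem x hx'.1 _ (hh x hx'.1).1) (hxy ▸ C.mem y hy'.1 _ (hh y hy'.1).1) hx'.2 hy'.2)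

theorem Conf.lines_flat (C : Conf M n D Λ P σ) {X : Set α} (hX : M.eRk X ≤ n)
    (Z : Finset (Set α)) (hZ : ∀ z ∈ Z, D ≤ #{y ∈ P | z ∈ σ y} ∧ z ⊆ M.closure X) :
    Z.card * D ≤ n * Λ.card := by
  have key := card_mul_le_card_mul (s := Z) (t := {x ∈ P | x ∈ M.closure X})
    (fun z x => z ∈ σ x) (m := D) (n := n) (fun z hz => ?_) (fun x hx => ?_)
  · calc _ ≤ _ := key
      _ ≤ Λ.card * n := Nat.mul_le_mul_right _ (C.count_flat hX)
      _ = _ := mul_comm _ _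
  · refine (hZ z hz).1.trans (card_le_card fun y hy => ?_)
    rw [mem_filter] at hy
    rw [mem_bipartiteAbove, mem_filter]
    exact ⟨⟨hy.1, (hZ z hz).2 (C.mem y hy.1 z hy.2)⟩, hy.2⟩
  · refine le_trans (card_le_card fun z hz => ?_) (C.card x (mem_filter.mp hx).1)
    exact ((mem_bipartiteBelow _).mp hz).2

/-- The invariant of the doubling argument. -/
def Inv (M : Matroid α) (n D : ℕ) (P : Finset α) (σ : α → Finset (Set α)) (r : ℕ) (s : ℝ) :
    Prop :=
  ∃ (K : Set α) (I : Finset α) (e : α → α) (W : Finset (α × Set α)) (m : ℕ),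
    M.eRk K + 1 ≤ r ∧ I.Nonempty ∧
    (∀ w ∈ W, w.1 ∈ I ∧ D ≤ #{y ∈ P | w.2 ∈ σ y} ∧ w.2 ⊆ M.closure (insert (e w.1) K)) ∧
    (∀ z, #{w ∈ W | w.2 = z} ≤ m) ∧ D * m ≤ 2 * n * W.card ∧ s * I.card ≤ W.card

theorem Conf.base (C : Conf M n D Λ P σ) (hn : 2 ≤ n) (hP : P.Nonempty) :
    Inv M n D P σ 3 1 := by
  obtain ⟨x, hx⟩ := hP
  obtain ⟨a, ha, -⟩ := C.out x hx ∅ (by simp)
  have hal := C.line a (C.sub x hx ha)
  have hX : M.eRk a ≤ n := by rw [hal.2]; exact_mod_cast hn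
  choose! z hz using fun y hy => C.out y hy a hX
  have he : ∀ y ∈ P, ∃ u ∈ z y, u ≠ y := by
    intro y hy
    by_contra hcon
    push Not at hcon
    have hzl := C.line _ (C.sub y hy (hz y hy).1)
    have h1 : M.eRk (z y) ≤ M.eRk {y} := M.eRk_mono (fun u hu => hcon u hu)
    have h2 := h1.trans (M.eRk_singleton_le y)
    rw [hzl.2] at h2
    exact absurd h2 (by decide)
  choose! e he using he
  set I : Finset α := {y ∈ P | a ∈ σ y} with hI
  have hinj : Function.Injective (fun y => (y, z y)) := fun y y' h => (Prod.ext_iff.mp h).1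
  have hcard : (I.image (fun y => (y, z y))).card = I.card := card_image_of_injective _ hinj
  have hD : D ≤ I.card := C.deg x hx a ha
  refine ⟨a, I, e, I.image (fun y => (y, z y)), 1, ?_, ⟨x, mem_filter.mpr ⟨hx, ha⟩⟩, ?_, ?_, ?_,
    ?_⟩
  · rw [hal.2]; decide
  · intro w hw
    obtain ⟨y, hy, rfl⟩ := mem_image.mp hw
    have hy' := mem_filter.mp hy
    have hzl := C.line _ (C.sub y hy'.1 (hz y hy'.1).1)
    refine ⟨hy, C.deg y hy'.1 _ (hz y hy'.1).1, ?_⟩
    refine line_subset_closure C.simple hzl (he y hy'.1).2 (he y hy'.1).1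
      (C.mem y hy'.1 _ (hz y hy'.1).1) ?_ ?_
    · exact M.mem_closure_of_mem' (Set.mem_insert _ _) (hzl.1.subset_ground (he y hy'.1).1)
    · exact M.mem_closure_of_mem' (Set.mem_insert_of_mem _ (C.mem y hy'.1 a hy'.2))
        (hal.1.subset_ground (C.mem y hy'.1 a hy'.2))
  · intro l
    rw [card_le_one]
    intro w hw w' hw'
    obtain ⟨hw1, hw2⟩ := mem_filter.mp hw
    obtain ⟨hw1', hw2'⟩ := mem_filter.mp hw'
    obtain ⟨y, hy, rfl⟩ := mem_image.mp hw1
    obtain ⟨y', hy', rfl⟩ := mem_image.mp hw1'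
    have h1 := mem_filter.mp hy
    have h2 := mem_filter.mp hy'
    have hzz : z y = z y' := by simp only at hw2 hw2'; rw [hw2, hw2']
    by_cases hyy : y = y'
    · rw [hyy]
    exfalso
    refine (hz y h1.1).2 (line_subset_closure C.simple (C.line _ (C.sub y h1.1 (hz y h1.1).1)) hyy
      (C.mem y h1.1 _ (hz y h1.1).1) (hzz ▸ C.mem y' h2.1 _ (hz y' h2.1).1) ?_ ?_)
    · exact M.subset_closure a hal.1.subset_ground (C.mem y h1.1 a h1.2)
    · exact M.subset_closure a hal.1.subset_ground (C.mem y' h2.1 a h2.2)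
  · rw [hcard]; nlinarith
  · rw [hcard]; simp

theorem Conf.final (C : Conf M n D Λ P σ) {s : ℝ} (h : Inv M n D P σ n s) :
    s * D ≤ n * Λ.card := by
  obtain ⟨K, I, e, W, m, hK, hI, hW, -, -, hs⟩ := h
  have hsum : W.card = ∑ i ∈ I, #{w ∈ W | w.1 = i} :=
    card_eq_sum_card_fiberwise (fun w hw => (hW w hw).1)
  have : ∃ i ∈ I, s ≤ (#{w ∈ W | w.1 = i} : ℝ) := by
    apply exists_le_of_sum_le hI
    rw [sum_const, nsmul_eq_mul, mul_comm]
    rw [hsum] at hs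
    exact_mod_cast hs
  obtain ⟨i, -, hi⟩ := this
  have hX : M.eRk (insert (e i) K) ≤ n := (M.eRk_insert_le_add_one _ _).trans hK
  have hc : (({w ∈ W | w.1 = i}).image Prod.snd).card = #{w ∈ W | w.1 = i} := by
    apply card_image_of_injOn
    intro w hw w' hw' h
    have h1 := (mem_filter.mp hw).2
    have h2 := (mem_filter.mp hw').2
    exact Prod.ext (h1.trans h2.symm) h
  have := C.lines_flat hX (({w ∈ W | w.1 = i}).image Prod.snd) (fun z hz => by
    obtain ⟨w, hw, rfl⟩ := mem_image.mp hz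
    obtain ⟨h1, rfl⟩ := mem_filter.mp hw
    exact (hW w h1).2)
  rw [hc] at this
  have h2 : ((#{w ∈ W | w.1 = i} : ℕ) : ℝ) * D ≤ n * Λ.card := by exact_mod_cast this
  exact le_trans (mul_le_mul_of_nonneg_right hi (Nat.cast_nonneg _)) h2

theorem step_num (s I D n L H m : ℝ) (hs : 1 ≤ s) (hI : 0 < I) (hD : 0 ≤ D) (hn : 0 < n)
    (hL : 0 < L) (hH : 0 ≤ H) (r4 : s * D ≤ 2 * n * H) (r5 : s * I * D ≤ 4 * L * m * n) :
    s ^ 2 * (D ^ 2 / (8 * n ^ 2 * L)) * I ≤ H * m := by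
  have hs0 : 0 ≤ s := by linarith
  have r6 : (s * D) * (s * I * D) ≤ (2 * n * H) * (4 * L * m * n) :=
    mul_le_mul r4 r5 (by positivity) (by positivity)
  rw [mul_div_assoc', div_mul_eq_mul_div, div_le_iff₀ (by positivity)]
  nlinarith

theorem exists_ceil (Y L : ℕ) (hL : 0 < L) : ∃ m : ℕ, (Y : ℝ) ≤ 4 * L * m ∧
    ∀ A B C : ℕ, B ≤ A + C → Y ≤ 2 * L * B → 4 * L * C ≤ Y → m ≤ A := by
  have hLpos : (0 : ℝ) < L := Nat.cast_pos.mpr hL
  refine ⟨⌈(Y : ℝ) / (4 * L)⌉₊, ?_, fun A B C h1 h2 h3 => ?_⟩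
  · have := Nat.le_ceil ((Y : ℝ) / (4 * L))
    rw [div_le_iff₀ (by positivity)] at this
    linarith
  · rw [Nat.ceil_le, div_le_iff₀ (by positivity)]
    have := Nat.mul_le_mul_left (4 * L) h1
    have h5 : Y ≤ A * (4 * L) := by nlinarith
    exact_mod_cast h5

theorem Conf.step (C : Conf M n D Λ P σ) {r : ℕ} {s : ℝ} (hr : r ≤ n) (hs1 : 1 ≤ s)
    (hn : 1 ≤ n) (hL : 0 < Λ.card) (hD : 8 * n ^ 3 * Λ.card ≤ D ^ 2) (h : Inv M n D P σ r s) :
    Inv M n D P σ (r + 1) (s ^ 2 * (D ^ 2 / (8 * n ^ 2 * Λ.card))) := by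
  obtain ⟨K, I, e, W, m, hK, hI, hW, hm, hDm, hs⟩ := h
  set L := Λ.card with hLdef
  have hX : ∀ i, M.eRk (insert (e i) K) ≤ n := fun i =>
    ((M.eRk_insert_le_add_one _ _).trans hK).trans (by exact_mod_cast hr)
  have hh0 : ∀ i p, p ∈ P → ∃ l ∈ σ p, ¬ l ⊆ M.closure (insert (e i) K) :=
    fun i p hp => C.out p hp _ (hX i)
  choose! h hh using hh0
  set Y : Finset (α × α) := {y ∈ I ×ˢ P | ∃ z ∈ σ y.2, (y.1, z) ∈ W} with hY
  have hYI : ∀ y ∈ Y, y.1 ∈ I := fun y hy => (mem_product.mp (mem_filter.mp hy).1).1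
  have hYP : ∀ y ∈ Y, y.2 ∈ P := fun y hy => (mem_product.mp (mem_filter.mp hy).1).2
  have hYF : ∀ y ∈ Y, y.2 ∈ M.closure (insert (e y.1) K) := by
    intro y hy
    obtain ⟨z, hz, hzW⟩ := (mem_filter.mp hy).2
    exact (hW _ hzW).2.2 (C.mem _ (hYP y hy) z hz)
  have hinj : ∀ y ∈ Y, ∀ y' ∈ Y, y.1 = y'.1 → h y.1 y.2 = h y'.1 y'.2 → y = y' := by
    intro y hy y' hy' h1 h2
    refine Prod.ext h1 ?_
    by_contra hne
    have hp := hh y.1 y.2 (hYP y hy)
    have hp' := hh y'.1 y'.2 (hYP y' hy')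
    exact hp.2 (line_subset_closure C.simple (C.line _ (C.sub _ (hYP y hy) hp.1)) hne
      (C.mem _ (hYP y hy) _ hp.1) (h2 ▸ C.mem _ (hYP y' hy') _ hp'.1) (hYF y hy)
      (h1 ▸ hYF y' hy'))
  have h1 : W.card * D ≤ Y.card * n := by
    refine card_mul_le_card_mul (s := W) (t := Y) (fun w y => w.1 = y.1 ∧ w.2 ∈ σ y.2)
      (fun w hw => ?_) (fun y hy => ?_)
    · refine (hW w hw).2.1.trans ?_
      refine card_le_card_of_injOn (fun p => (w.1, p)) (fun p hp => ?_)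
        (fun p _ p' _ h => (Prod.ext_iff.mp h).2)
      have hp' := mem_filter.mp hp
      rw [mem_coe, mem_bipartiteAbove]
      exact ⟨mem_filter.mpr ⟨mem_product.mpr ⟨(hW w hw).1, hp'.1⟩, w.2, hp'.2, hw⟩, rfl, hp'.2⟩
    · refine le_trans ?_ (C.card _ (hYP y hy))
      refine card_le_card_of_injOn Prod.snd (fun w hw => ?_) (fun w hw w' hw' h => ?_)
      · exact ((mem_bipartiteBelow _).mp hw).2.2
      · exact Prod.ext (((mem_bipartiteBelow _).mp hw).2.1.trans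
          ((mem_bipartiteBelow _).mp hw').2.1.symm) h
  have h2 : ∀ p ∈ P, #{y ∈ Y | y.2 = p} ≤ n * m := by
    intro p hp
    calc #{y ∈ Y | y.2 = p}
        ≤ ((σ p).biUnion (fun z => ({w ∈ W | w.2 = z}).image (fun w => (w.1, p)))).card := by
          refine card_le_card fun y hy => ?_
          obtain ⟨hy1, hy2⟩ := mem_filter.mp hy
          obtain ⟨z, hz, hzW⟩ := (mem_filter.mp hy1).2
          refine mem_biUnion.mpr ⟨z, hy2 ▸ hz, mem_image.mpr ⟨(y.1, z), ?_, ?_⟩⟩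
          · exact mem_filter.mpr ⟨hzW, rfl⟩
          · rw [← hy2]
      _ ≤ ∑ z ∈ σ p, (({w ∈ W | w.2 = z}).image (fun w => (w.1, p))).card := card_biUnion_le
      _ ≤ ∑ z ∈ σ p, m := sum_le_sum fun z _ => card_image_le.trans (hm z)
      _ = (σ p).card * m := by rw [sum_const, smul_eq_mul]
      _ ≤ n * m := Nat.mul_le_mul_right _ (C.card p hp)
  set deg : Set α → ℕ := fun g => #{y ∈ Y | h y.1 y.2 = g} with hdeg
  set Yh : Finset (α × α) := {y ∈ Y | Y.card ≤ 2 * L * deg (h y.1 y.2)} with hYh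
  have h3 : Y.card ≤ 2 * Yh.card := by
    have hsplit := card_filter_add_card_filter_not (s := Y)
      (fun y => Y.card ≤ 2 * L * deg (h y.1 y.2))
    set Yl : Finset (α × α) := {y ∈ Y | ¬ Y.card ≤ 2 * L * deg (h y.1 y.2)} with hYl
    have hsum : Yl.card = ∑ g ∈ Λ, #{y ∈ Yl | h y.1 y.2 = g} :=
      card_eq_sum_card_fiberwise (fun y hy => by
        have hy' := hYP y (mem_filter.mp hy).1
        exact C.sub _ hy' (hh y.1 y.2 hy').1)
    have hle : ∀ g ∈ Λ, 2 * L * #{y ∈ Yl | h y.1 y.2 = g} ≤ Y.card := by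
      intro g _
      rcases ({y ∈ Yl | h y.1 y.2 = g} : Finset (α × α)).eq_empty_or_nonempty with h0 | ⟨y, hy⟩
      · rw [h0]; simp
      · obtain ⟨hy1, hy2⟩ := mem_filter.mp hy
        have hlt := (mem_filter.mp hy1).2
        rw [hy2] at hlt
        have : #{y ∈ Yl | h y.1 y.2 = g} ≤ deg g :=
          card_le_card (filter_subset_filter _ (filter_subset _ _))
        have := Nat.mul_le_mul_left (2 * L) this
        omega
    have : 2 * L * Yl.card ≤ L * Y.card := by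
      rw [hsum, mul_sum]
      calc _ ≤ ∑ g ∈ Λ, Y.card := sum_le_sum hle
        _ = _ := by rw [sum_const, smul_eq_mul]
    have h' : 2 * Yl.card ≤ Y.card := by
      have : L * (2 * Yl.card) ≤ L * Y.card := by linarith
      exact Nat.le_of_mul_le_mul_left this hL
    have h'' : Yh.card + Yl.card = Y.card := hsplit
    clear hsum hsplit
    omega
  obtain ⟨i0, hi0I, hi0⟩ : ∃ i ∈ I, Yh.card ≤ I.card * #{y ∈ Yh | y.1 = i} := by
    apply exists_le_of_sum_le hI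
    rw [sum_const, smul_eq_mul, ← mul_sum,
      ← card_eq_sum_card_fiberwise (f := Prod.fst) (s := Yh) (t := I)
        (fun y hy => hYI y (mem_filter.mp hy).1)]
  set H : Finset (α × α) := {y ∈ Yh | y.1 = i0} with hH
  have hHY : ∀ y ∈ H, y ∈ Y := fun y hy => (mem_filter.mp (mem_filter.mp hy).1).1
  have hH1 : ∀ y ∈ H, y.1 = i0 := fun y hy => (mem_filter.mp hy).2
  have h4 : 4 * L * (n * m) ≤ Y.card := by
    have a1 : 2 * n ^ 2 * (4 * L * (n * m)) ≤ 2 * n ^ 2 * Y.card := by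
      calc 2 * n ^ 2 * (4 * L * (n * m)) = (8 * n ^ 3 * L) * m := by ring
        _ ≤ D ^ 2 * m := Nat.mul_le_mul_right _ hD
        _ = D * (D * m) := by ring
        _ ≤ D * (2 * n * W.card) := Nat.mul_le_mul_left _ hDm
        _ = 2 * n * (W.card * D) := by ring
        _ ≤ 2 * n * (Y.card * n) := Nat.mul_le_mul_left _ h1
        _ = _ := by ring
    exact Nat.le_of_mul_le_mul_left a1 (Nat.mul_pos two_pos (Nat.pow_pos hn))
  have hLpos : (0 : ℝ) < L := Nat.cast_pos.mpr hL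
  obtain ⟨m', hm'1, hm'⟩ := exists_ceil Y.card L hL
  have hJ0 : ∀ y ∈ H, ∃ J : Finset (α × α), J ⊆ {y' ∈ Y | h y'.1 y'.2 = h y.1 y.2 ∧ y'.2 ≠ y.2} ∧
      J.card = m' := by
    intro y hy
    apply exists_subset_card_eq
    have hheavy := (mem_filter.mp (mem_filter.mp hy).1).2
    have hc : deg (h y.1 y.2) ≤ #{y' ∈ Y | h y'.1 y'.2 = h y.1 y.2 ∧ y'.2 ≠ y.2} + n * m := by
      refine le_trans ?_ (Nat.add_le_add_left (h2 y.2 (hYP y (hHY y hy))) _)
      refine le_trans (card_le_card ?_) (card_union_le _ _)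
      intro y' hy'
      obtain ⟨a1, a2⟩ := mem_filter.mp hy'
      by_cases hc : y'.2 = y.2
      · exact mem_union_right _ (mem_filter.mpr ⟨a1, hc⟩)
      · exact mem_union_left _ (mem_filter.mpr ⟨a1, a2, hc⟩)
    exact hm' _ _ _ hc hheavy h4
  choose! J hJ using hJ0
  have hJY : ∀ y ∈ H, ∀ y' ∈ J y, y' ∈ Y ∧ h y'.1 y'.2 = h y.1 y.2 ∧ y'.2 ≠ y.2 :=
    fun y hy y' hy' => mem_filter.mp ((hJ y hy).1 hy')
  have hginj : ∀ y ∈ H, ∀ y' ∈ H, h y.1 y.2 = h y'.1 y'.2 → y = y' := fun y hy y' hy' hh =>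
    hinj y (hHY y hy) y' (hHY y' hy') ((hH1 y hy).trans (hH1 y' hy').symm) hh
  have hcardJ : ∀ y ∈ H, ((J y).image (fun y' => (y'.1, h y.1 y.2))).card = m' := by
    intro y hy
    rw [← (hJ y hy).2]
    apply card_image_of_injOn
    intro a ha b hb hab
    exact hinj a (hJY y hy a ha).1 b (hJY y hy b hb).1 (Prod.ext_iff.mp hab).1
      ((hJY y hy a ha).2.1.trans (hJY y hy b hb).2.1.symm)
  set W' : Finset (α × Set α) := H.biUnion (fun y => (J y).image (fun y' => (y'.1, h y.1 y.2)))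
    with hW'
  have hW'card : W'.card = H.card * m' := by
    rw [hW', card_biUnion, sum_congr rfl hcardJ, sum_const, smul_eq_mul]
    intro y hy y' hy' hne
    rw [Function.onFun, disjoint_left]
    intro w hw hw'
    obtain ⟨a, -, rfl⟩ := mem_image.mp hw
    obtain ⟨b, -, hb⟩ := mem_image.mp hw'
    exact hne (hginj y hy y' hy' (Prod.ext_iff.mp hb).2.symm)
  have hIpos : (0 : ℝ) < I.card := by exact_mod_cast hI.card_pos
  have hnpos : (0 : ℝ) < n := by exact_mod_cast hn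
  have r1 : (W.card : ℝ) * D ≤ Y.card * n := by exact_mod_cast h1
  have r2 : (Y.card : ℝ) ≤ 2 * (I.card * H.card) := by
    have : Y.card ≤ 2 * (I.card * H.card) := h3.trans (Nat.mul_le_mul_left _ hi0)
    exact_mod_cast this
  have hD0 : (0 : ℝ) ≤ D := Nat.cast_nonneg _
  have r3 : s * I.card * D ≤ Y.card * n := le_trans (mul_le_mul_of_nonneg_right hs hD0) r1
  have r4 : s * D ≤ 2 * n * H.card := by
    have : I.card * (s * D) ≤ I.card * (2 * n * H.card) := by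
      calc I.card * (s * D) = s * I.card * D := by ring
        _ ≤ Y.card * n := r3
        _ ≤ 2 * (I.card * H.card) * n := mul_le_mul_of_nonneg_right r2 hnpos.le
        _ = _ := by ring
    exact le_of_mul_le_mul_left this hIpos
  refine ⟨insert (e i0) K, I, e, W', m', ?_, hI, ?_, ?_, ?_, ?_⟩
  · push_cast
    exact add_le_add_left ((M.eRk_insert_le_add_one _ _).trans hK) 1
  · intro w hw
    obtain ⟨y, hy, hw⟩ := mem_biUnion.mp hw
    obtain ⟨a, ha, rfl⟩ := mem_image.mp hw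
    obtain ⟨a1, a2, a3⟩ := hJY y hy a ha
    have hyP := hYP y (hHY y hy)
    refine ⟨hYI a a1, C.deg _ hyP _ (hh _ _ hyP).1, ?_⟩
    refine line_subset_closure C.simple (C.line _ (C.sub _ hyP (hh _ _ hyP).1)) a3
      (a2 ▸ C.mem _ (hYP a a1) _ (hh _ _ (hYP a a1)).1) (C.mem _ hyP _ (hh _ _ hyP).1) ?_ ?_
    · exact M.closure_subset_closure (Set.insert_subset_insert (Set.subset_insert _ _)) (hYF a a1)
    · have := hYF y (hHY y hy)
      rw [hH1 y hy] at this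
      exact M.closure_subset_closure (Set.subset_insert _ _) this
  · intro z
    rcases ({w ∈ W' | w.2 = z} : Finset (α × Set α)).eq_empty_or_nonempty with h0 | ⟨w, hw⟩
    · rw [h0]; simp
    · obtain ⟨hw1, hw2⟩ := mem_filter.mp hw
      obtain ⟨y, hy, hw1⟩ := mem_biUnion.mp hw1
      obtain ⟨a, -, rfl⟩ := mem_image.mp hw1
      rw [← hcardJ y hy]
      refine card_le_card fun w' hw' => ?_
      obtain ⟨b1, b2⟩ := mem_filter.mp hw'
      obtain ⟨y', hy', b1⟩ := mem_biUnion.mp b1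
      obtain ⟨b, hb, rfl⟩ := mem_image.mp b1
      have : y' = y := hginj y' hy' y hy (b2.trans hw2.symm)
      subst this
      exact mem_image.mpr ⟨b, hb, rfl⟩
  · rw [hW'card]
    have : (D : ℝ) ≤ 2 * n * H.card := (le_mul_of_one_le_left hD0 hs1).trans r4
    have h5 : D ≤ 2 * n * H.card := by exact_mod_cast this
    calc D * m' ≤ 2 * n * H.card * m' := Nat.mul_le_mul_right _ h5
      _ = _ := mul_assoc _ _ _
  · rw [hW'card, Nat.cast_mul]
    exact step_num _ _ _ _ _ _ _ hs1 hIpos hD0 hnpos hLpos (Nat.cast_nonneg _) r4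
      (r3.trans (mul_le_mul_of_nonneg_right hm'1 hnpos.le))

theorem Conf.iter (C : Conf M n D Λ P σ) (hn : 3 ≤ n) (hP : P.Nonempty) (hL : 0 < Λ.card)
    (hD : 8 * n ^ 3 * Λ.card ≤ D ^ 2) (k : ℕ) (hk : 3 + k ≤ n) :
    Inv M n D P σ (3 + k) (((D : ℝ) ^ 2 / (8 * n ^ 2 * Λ.card)) ^ (2 ^ k - 1)) := by
  have hLpos : (0 : ℝ) < Λ.card := by exact_mod_cast hL
  have hnpos : (1 : ℝ) ≤ n := by exact_mod_cast (by omega : 1 ≤ n)
  have hτ : (1 : ℝ) ≤ (D : ℝ) ^ 2 / (8 * n ^ 2 * Λ.card) := by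
    rw [le_div_iff₀ (by positivity)]
    have : (8 * n ^ 3 * Λ.card : ℝ) ≤ D ^ 2 := by exact_mod_cast hD
    have h2 : (8 * n ^ 2 * Λ.card : ℝ) * 1 ≤ 8 * n ^ 2 * Λ.card * n :=
      mul_le_mul_of_nonneg_left hnpos (by positivity)
    nlinarith
  induction k with
  | zero => simpa using C.base (by omega) hP
  | succ k ih =>
    have := C.step (by omega) (one_le_pow₀ hτ) (by omega) hL hD (ih (by omega))
    have e : 2 ^ (k + 1) - 1 = (2 ^ k - 1) * 2 + 1 := by
      have : 1 ≤ 2 ^ k := Nat.one_le_two_pow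
      rw [pow_succ]; omega
    rw [e, pow_succ, pow_mul]
    exact this

theorem Conf.pow_bound (C : Conf M n D Λ P σ) (hn : 3 ≤ n) (hP : P.Nonempty) (hL : 0 < Λ.card)
    (hD1 : 1 ≤ D) :
    (D : ℝ) ^ (2 * 2 ^ (n - 3) - 1) ≤ (8 * n ^ 3 * Λ.card) ^ (2 ^ (n - 3)) := by
  set N := 2 ^ (n - 3) with hN
  have hN1 : 1 ≤ N := Nat.one_le_two_pow
  have hLpos : (0 : ℝ) < Λ.card := by exact_mod_cast hL
  have hnpos : (1 : ℝ) ≤ n := by exact_mod_cast (by omega : 1 ≤ n)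
  have hD1' : (1 : ℝ) ≤ D := by exact_mod_cast hD1
  by_cases hD : 8 * n ^ 3 * Λ.card ≤ D ^ 2
  · have h1 := C.iter hn hP hL hD (n - 3) (by omega)
    rw [show 3 + (n - 3) = n by omega] at h1
    have h2 := C.final h1
    rw [← hN, div_pow, div_mul_eq_mul_div, div_le_iff₀ (by positivity)] at h2
    obtain ⟨k, hk⟩ : ∃ k, N = k + 1 := ⟨N - 1, by omega⟩
    rw [hk] at h2 ⊢
    rw [show 2 * (k + 1) - 1 = 2 * k + 1 by omega, pow_succ, pow_mul]
    rw [Nat.add_sub_cancel] at h2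
    refine h2.trans ?_
    rw [pow_succ _ k, mul_comm]
    refine mul_le_mul ?_ ?_ (by positivity) (by positivity)
    · apply pow_le_pow_left₀ (by positivity)
      have h2 : (8 * n ^ 2 * Λ.card : ℝ) * 1 ≤ 8 * n ^ 2 * Λ.card * n :=
        mul_le_mul_of_nonneg_left hnpos (by positivity)
      nlinarith
    · apply mul_le_mul_of_nonneg_right _ hLpos.le
      have : (1 : ℝ) ≤ n ^ 2 := one_le_pow₀ hnpos
      nlinarith
  · push Not at hD
    have h1 : (D : ℝ) ^ 2 ≤ 8 * n ^ 3 * Λ.card := by exact_mod_cast hD.le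
    calc (D : ℝ) ^ (2 * N - 1) ≤ (D : ℝ) ^ (2 * N) := pow_le_pow_right₀ hD1' (by omega)
      _ = ((D : ℝ) ^ 2) ^ N := pow_mul _ _ _
      _ ≤ _ := pow_le_pow_left₀ (by positivity) h1 _

end

theorem upper {M : Matroid α} {n : ℕ} (hn : 3 ≤ n) (hE : M.E.Finite) (hM : IsSimple M)
    {Λ : Finset (Set α)} (hΛ : ∀ l ∈ Λ, IsLine M l) :
    ((joints M n Λ).ncard : ℝ) ≤
      8 * n ^ 3 * (Λ.card : ℝ) ^ ((3 * 2 ^ (n - 3) - 1 : ℝ) / (2 * 2 ^ (n - 3) - 1)) := by
  classical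
  have hfin : (joints M n Λ).Finite := hE.subset (fun x hx => hx.1)
  set P := hfin.toFinset with hPdef
  have hPc : (joints M n Λ).ncard = P.card := Set.ncard_eq_toFinset_card _ hfin
  rw [hPc]
  rcases P.eq_empty_or_nonempty with h0 | hPne
  · rw [h0]; simp only [card_empty, Nat.cast_zero]; positivity
  have hj : ∀ x ∈ P, ∃ l : Fin n → Set α, (∀ i, l i ∈ Λ ∧ x ∈ l i) ∧
      (n : ℕ∞) + 1 ≤ M.eRk (⋃ i, l i) := fun x hx => (hfin.mem_toFinset.mp hx).2
  have : Nonempty (Fin n → Set α) := ⟨fun _ => ∅⟩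
  choose! l hl using hj
  set σ : α → Finset (Set α) := fun x => univ.image (l x) with hσ
  have hsub : ∀ x ∈ P, σ x ⊆ Λ := by
    intro x hx z hz
    obtain ⟨i, -, rfl⟩ := mem_image.mp hz
    exact ((hl x hx).1 i).1
  have hL : 0 < Λ.card := by
    obtain ⟨x, hx⟩ := hPne
    exact card_pos.mpr ⟨_, ((hl x hx).1 ⟨0, by omega⟩).1⟩
  have hP1 : 1 ≤ P.card := hPne.card_pos
  set d := (P.card - 1) / Λ.card with hd
  have hd1 : d * Λ.card < P.card := lt_of_le_of_lt (Nat.div_mul_le_self _ _) (by omega)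
  have hd2 : P.card ≤ (d + 1) * Λ.card := by
    have := Nat.lt_div_mul_add (a := P.card - 1) hL
    rw [← hd] at this
    rw [add_mul, one_mul]; omega
  obtain ⟨P', hP', hne, hdeg⟩ := prune σ d _ Λ P rfl hsub hd1
  have C : Conf M n (d + 1) Λ P' σ :=
    { simple := hM
      line := hΛ
      sub := fun x hx => hsub x (hP' hx)
      card := fun x hx => card_image_le.trans (by simp)
      mem := fun x hx z hz => by
        obtain ⟨i, -, rfl⟩ := mem_image.mp hz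
        exact ((hl x (hP' hx)).1 i).2
      out := fun x hx X hX => by
        by_contra hcon
        push Not at hcon
        have h1 : (⋃ i, l x i) ⊆ M.closure X :=
          Set.iUnion_subset fun i => hcon _ (mem_image.mpr ⟨i, mem_univ _, rfl⟩)
        have h2 := ((hl x (hP' hx)).2.trans (M.eRk_mono h1)).trans
          ((M.eRk_closure_eq X).le.trans hX)
        have h3 : n + 1 ≤ n := by exact_mod_cast h2
        omega
      deg := by convert hdeg }
  have hb := C.pow_bound hn hne hL (Nat.le_add_left 1 d)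
  set N := 2 ^ (n - 3) with hN
  have hN1 : 1 ≤ N := Nat.one_le_two_pow
  have hNr : ((2 : ℝ) ^ (n - 3)) = N := by rw [hN]; push_cast; rfl
  rw [hNr]
  have hLpos : (0 : ℝ) < Λ.card := by exact_mod_cast hL
  have hnpos : (1 : ℝ) ≤ n := by exact_mod_cast (by omega : 1 ≤ n)
  have hc1 : (1 : ℝ) ≤ 8 * n ^ 3 := by
    have : (1 : ℝ) ≤ n ^ 3 := one_le_pow₀ hnpos
    linarith
  have hk : 2 * N - 1 ≠ 0 := by omega
  have hkr : ((2 * N - 1 : ℕ) : ℝ) = 2 * N - 1 := by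
    rw [Nat.cast_sub (by omega)]; push_cast; ring
  have hkpos : (2 * N - 1 : ℝ) ≠ 0 := by rw [← hkr]; exact_mod_cast hk
  refine le_of_pow_le_pow_left₀ hk (by positivity) ?_
  rw [mul_pow, ← Real.rpow_natCast ((Λ.card : ℝ) ^ _), ← Real.rpow_mul hLpos.le, hkr,
    div_mul_cancel₀ _ hkpos]
  have e3 : (3 * N - 1 : ℝ) = ((N + (2 * N - 1) : ℕ) : ℝ) := by
    rw [Nat.cast_add, hkr]; ring
  rw [e3, Real.rpow_natCast]
  have h4 : (P.card : ℝ) ≤ ((d + 1 : ℕ) : ℝ) * Λ.card := by exact_mod_cast hd2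
  calc (P.card : ℝ) ^ (2 * N - 1) ≤ (((d + 1 : ℕ) : ℝ) * Λ.card) ^ (2 * N - 1) :=
        pow_le_pow_left₀ (by positivity) h4 _
    _ = ((d + 1 : ℕ) : ℝ) ^ (2 * N - 1) * (Λ.card : ℝ) ^ (2 * N - 1) := mul_pow _ _ _
    _ ≤ (8 * n ^ 3 * Λ.card) ^ N * (Λ.card : ℝ) ^ (2 * N - 1) :=
        mul_le_mul_of_nonneg_right hb (by positivity)
    _ = (8 * n ^ 3) ^ N * (Λ.card : ℝ) ^ (N + (2 * N - 1)) := by rw [mul_pow, pow_add]; ring
    _ ≤ _ := mul_le_mul_of_nonneg_right (pow_le_pow_right₀ hc1 (by omega)) (by positivity)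

end Pool.Agent.Lib.MP_66cbdd_co
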