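import Mathlib
import Pool.Agent.Lib.MP_66cbdd_co.Defs
import Pool.Agent.Lib.MP_66cbdd_co.Upper

/-!
Three-dimensional joints: at least one eighth of them form a locally linear graph on the lines.
-/

namespace Pool.Agent.Lib.MP_66cbdd_co.RS3

open Finset

theorem avg {G X : Type*} [Fintype G] [Nonempty G] (P : Finset X) (good : G → X → Prop)
    [∀ g x, Decidable (good g x)] (c : ℕ)
    (h : ∀ x ∈ P, Fintype.card G ≤ c * #{g | good g x}) :
    ∃ g, P.card ≤ c * #{x ∈ P | good g x} := by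
  by_contra hcon
  push Not at hcon
  have h1 : ∑ g : G, c * #{x ∈ P | good g x} < ∑ _g : G, P.card :=
    sum_lt_sum_of_nonempty univ_nonempty fun g _ => hcon g
  have h2 : ∑ g : G, #{x ∈ P | good g x} = ∑ x ∈ P, #{g | good g x} := by
    simp only [card_filter]
    exact sum_comm
  have h3 : ∑ _x ∈ P, Fintype.card G ≤ ∑ x ∈ P, c * #{g | good g x} := sum_le_sum h
  rw [← mul_sum, h2] at h1
  rw [← mul_sum] at h3
  simp only [sum_const, card_univ, smul_eq_mul] at h1 h3
  rw [mul_comm] at h3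
  omega

theorem fib {T : Type*} [Fintype T] [DecidableEq T] (p q : Fin 3 → T) (hp : Function.Injective p)
    (hpq : ∀ i j, p i ≠ q j) :
    Fintype.card (T → Bool) ≤ 8 * #{s : T → Bool | ∀ i, s (p i) ≠ s (q i)} := by
  classical
  let F : (T → Bool) → T → Bool := fun s => Function.extend p (fun i => !s (q i)) s
  have hFp : ∀ s i, F s (p i) = !s (q i) := fun s i => hp.extend_apply _ _ i
  have hFo : ∀ s t, (¬ ∃ i, p i = t) → F s t = s t := fun s t ht =>
    Function.extend_apply' _ _ _ ht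
  have key : (univ : Finset (T → Bool)).card ≤
      ((univ : Finset (Fin 3 → Bool)) ×ˢ
        ({s : T → Bool | ∀ i, s (p i) ≠ s (q i)} : Finset _)).card := by
    refine card_le_card_of_injOn (fun s => (fun i => s (p i), F s)) (fun s _ => ?_)
      (fun s _ s' _ hss => ?_)
    · simp only [coe_product, coe_univ, Set.mem_prod, Set.mem_univ, true_and, coe_filter,
        mem_univ, Set.mem_ofPred_eq]
      intro i
      rw [hFp, hFo s (q i) (fun ⟨j, hj⟩ => hpq j i hj)]
      cases s (q i) <;> simp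
    · simp only [Prod.mk.injEq] at hss
      funext t
      by_cases ht : ∃ i, p i = t
      · obtain ⟨i, rfl⟩ := ht
        exact congrFun hss.1 i
      · rw [← hFo s t ht, ← hFo s' t ht, hss.2]
  rw [card_product, card_univ, card_univ] at key
  simpa using key

theorem sel {β X : Type*} (P : Finset X) (p q : X → Fin 3 → β)
    (hp : ∀ x ∈ P, Function.Injective (p x)) (hpq : ∀ x ∈ P, ∀ i j, p x i ≠ q x j) :
    ∃ (s : β → Bool) (Q : Finset X), Q ⊆ P ∧ P.card ≤ 8 * Q.card ∧
      ∀ x ∈ Q, ∀ i, s (p x i) ≠ s (q x i) := by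
  classical
  let F : Finset β := P.biUnion fun x => univ.image (p x) ∪ univ.image (q x)
  have hpF : ∀ x ∈ P, ∀ i, p x i ∈ F := fun x hx i =>
    mem_biUnion.2 ⟨x, hx, mem_union_left _ (mem_image_of_mem _ (mem_univ i))⟩
  have hqF : ∀ x ∈ P, ∀ i, q x i ∈ F := fun x hx i =>
    mem_biUnion.2 ⟨x, hx, mem_union_right _ (mem_image_of_mem _ (mem_univ i))⟩
  let ex : (F → Bool) → β → Bool := fun s b => if h : b ∈ F then s ⟨b, h⟩ else false
  obtain ⟨s, hs⟩ := avg (G := F → Bool) P (fun s x => ∀ i, ex s (p x i) ≠ ex s (q x i)) 8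
    (fun x hx => by
      have h := fib (T := F) (fun i => ⟨p x i, hpF x hx i⟩) (fun i => ⟨q x i, hqF x hx i⟩)
        (fun i j hij => hp x hx (congrArg Subtype.val hij))
        (fun i j hij => hpq x hx i j (congrArg Subtype.val hij))
      refine h.trans (Nat.mul_le_mul_left _ (card_le_card fun s hs => ?_))
      simp only [mem_filter, mem_univ, true_and] at hs ⊢
      intro i
      simp only [ex, dif_pos (hpF x hx i), dif_pos (hqF x hx i)]
      exact hs i)
  exact ⟨ex s, _, filter_subset _ _, hs, fun x hx => (mem_filter.1 hx).2⟩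

variable {α : Type*}

theorem meet_once {M : Matroid α} (hM : IsSimple M) {a b : Set α} (ha : IsLine M a)
    (hb : IsLine M b) (hab : a ≠ b) {x y : α} (hxa : x ∈ a) (hxb : x ∈ b) (hya : y ∈ a)
    (hyb : y ∈ b) : x = y := by
  by_contra hxy
  apply hab
  have h1 := line_subset_closure hM (X := b) ha hxy hxa hya
    (M.subset_closure b hb.1.subset_ground hxb) (M.subset_closure b hb.1.subset_ground hyb)
  have h2 := line_subset_closure hM (X := a) hb hxy hxb hyb
    (M.subset_closure a ha.1.subset_ground hxa) (M.subset_closure a ha.1.subset_ground hya)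
  rw [hb.1.closure] at h1
  rw [ha.1.closure] at h2
  exact h1.antisymm h2

theorem rk_two_lines {M : Matroid α} (hM : IsSimple M) {a b : Set α} (ha : IsLine M a)
    (hb : IsLine M b) {x : α} (hxa : x ∈ a) (hxb : x ∈ b) : M.eRk (a ∪ b) ≤ 3 := by
  have hx : x ∈ M.E := ha.1.subset_ground hxa
  have h1 : M.eRk {x} = 1 := by
    have hI : M.Indep {x} := by simpa using hM x hx x hx
    rw [hI.eRk_eq_encard, Set.encard_singleton]
  have h2 : 1 ≤ M.eRk (a ∩ b) := by
    rw [← h1]
    exact M.eRk_mono (Set.singleton_subset_iff.2 ⟨hxa, hxb⟩)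
  have h3 := M.eRk_inter_add_eRk_union_le a b
  rw [ha.2, hb.2] at h3
  have h4 : 1 + M.eRk (a ∪ b) ≤ 1 + 3 := by
    calc 1 + M.eRk (a ∪ b) ≤ M.eRk (a ∩ b) + M.eRk (a ∪ b) := add_le_add_left h2 _
      _ ≤ 2 + 2 := h3
      _ = 1 + 3 := by norm_num
  exact (ENat.add_le_add_iff_left (by decide)).1 h4

theorem left_sub {M : Matroid α} {a b : Set α} (ha : IsLine M a) (hb : IsLine M b) :
    a ⊆ M.closure (a ∪ b) :=
  Set.subset_union_left.trans
    (M.subset_closure _ (Set.union_subset ha.1.subset_ground hb.1.subset_ground))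

theorem right_sub {M : Matroid α} {a b : Set α} (ha : IsLine M a) (hb : IsLine M b) :
    b ⊆ M.closure (a ∪ b) :=
  Set.subset_union_right.trans
    (M.subset_closure _ (Set.union_subset ha.1.subset_ground hb.1.subset_ground))

theorem cl_le {M : Matroid α} {a b X : Set α} (ha : a ⊆ M.closure X) (hb : b ⊆ M.closure X) :
    M.closure (a ∪ b) ⊆ M.closure X :=
  M.closure_subset_closure_of_subset_closure (Set.union_subset ha hb)

/-- Three lines meeting pairwise in three different points span one plane. -/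
theorem one_plane {M : Matroid α} (hM : IsSimple M) {a b c : Set α} (ha : IsLine M a)
    (hb : IsLine M b) (hc : IsLine M c) {x y z : α} (hxa : x ∈ a) (hxb : x ∈ b) (hyb : y ∈ b)
    (hyc : y ∈ c) (hza : z ∈ a) (hzc : z ∈ c) (hxy : x ≠ y) (hxz : x ≠ z) (hyz : y ≠ z) :
    M.closure (b ∪ c) = M.closure (a ∪ b) ∧ M.closure (a ∪ c) = M.closure (a ∪ b) := by
  have h1 : c ⊆ M.closure (a ∪ b) :=
    line_subset_closure hM hc hyz hyc hzc (right_sub ha hb hyb) (left_sub ha hb hza)
  have h2 : a ⊆ M.closure (b ∪ c) :=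
    line_subset_closure hM ha hxz hxa hza (left_sub hb hc hxb) (right_sub hb hc hzc)
  have h3 : b ⊆ M.closure (a ∪ c) :=
    line_subset_closure hM hb hxy hxb hyb (left_sub ha hc hxa) (right_sub ha hc hyc)
  exact ⟨(cl_le (right_sub ha hb) h1).antisymm (cl_le h2 (left_sub hb hc)),
    (cl_le (left_sub ha hb) h1).antisymm (cl_le (left_sub ha hc) h3)⟩

theorem upper3 {M : Matroid α} (hE : M.E.Finite) (hM : IsSimple M) {Λ : Finset (Set α)}
    (hΛ : ∀ l ∈ Λ, IsLine M l) :
    (joints M 3 Λ).ncard ≤ 8 * ruzsaSzemerediNumberNat Λ.card := by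
  classical
  have hfin : (joints M 3 Λ).Finite := hE.subset fun x hx => hx.1
  set P := hfin.toFinset with hP
  have hPc : (joints M 3 Λ).ncard = P.card := Set.ncard_eq_toFinset_card _ hfin
  have hex : ∀ x ∈ P, ∃ l : Fin 3 → Set α, (∀ i, l i ∈ Λ ∧ x ∈ l i) ∧
      ((3 : ℕ) : ℕ∞) + 1 ≤ M.eRk (⋃ i, l i) := fun x hx => (hfin.mem_toFinset.1 hx).2
  choose! l hl hr using hex
  have hline : ∀ x ∈ P, ∀ i, IsLine M (l x i) := fun x hx i => hΛ _ (hl x hx i).1
  have hno : ∀ x ∈ P, ∀ i j, ¬ ∀ k, l x k ⊆ M.closure (l x i ∪ l x j) := by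
    intro x hx i j hall
    have h1 : M.eRk (⋃ k, l x k) ≤ M.eRk (M.closure (l x i ∪ l x j)) :=
      M.eRk_mono (Set.iUnion_subset hall)
    rw [M.eRk_closure_eq] at h1
    have h2 := rk_two_lines hM (hline x hx i) (hline x hx j) (hl x hx i).2 (hl x hx j).2
    have h3 := ((hr x hx).trans h1).trans h2
    revert h3
    decide
  have hthird : ∀ i j : Fin 3, i ≠ j → ∃ k, ∀ m, m = i ∨ m = j ∨ m = k := by decide
  have hinj : ∀ x ∈ P, Function.Injective (l x) := by
    intro x hx i j hij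
    by_contra hne
    obtain ⟨k, hk⟩ := hthird i j hne
    refine hno x hx i k fun m => ?_
    rcases hk m with rfl | rfl | rfl
    · exact left_sub (hline x hx _) (hline x hx _)
    · rw [← hij]; exact left_sub (hline x hx _) (hline x hx _)
    · exact right_sub (hline x hx _) (hline x hx _)
  have hcover : ∀ i j : Fin 3, i ≠ j → ∀ m, m = i ∨ m = i + 1 ∨ m = j ∨ m = j + 1 := by decide
  have hsucc : ∀ i : Fin 3, i ≠ i + 1 := by decide
  have hadj : ∀ i j : Fin 3, i ≠ j → j = i + 1 ∨ i = j + 1 := by decide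
  obtain ⟨s, Q, hQP, hQc, hQ⟩ := sel P
    (fun x i => (M.closure (l x i ∪ l x (i + 1)), l x i))
    (fun x i => (M.closure (l x i ∪ l x (i + 1)), l x (i + 1)))
    (fun x hx i j hij => hinj x hx (congrArg Prod.snd hij))
    (fun x hx i j hij => by
      have h1 := congrArg Prod.fst hij
      have h2 := congrArg Prod.snd hij
      simp only at h1 h2
      by_cases hne : i = j
      · subst hne
        exact hsucc i (hinj x hx h2)
      · refine hno x hx i (i + 1) fun m => ?_
        rcases hcover i j hne m with rfl | rfl | rfl | rfl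
        · exact left_sub (hline x hx _) (hline x hx _)
        · exact right_sub (hline x hx _) (hline x hx _)
        · rw [h1]; exact left_sub (hline x hx _) (hline x hx _)
        · rw [h1]; exact right_sub (hline x hx _) (hline x hx _))
  have hsign : ∀ x ∈ Q, ∀ i j, l x i ≠ l x j →
      s (M.closure (l x i ∪ l x j), l x i) ≠ s (M.closure (l x i ∪ l x j), l x j) := by
    intro x hx i j hij
    rcases hadj i j (fun h => hij (by rw [h])) with rfl | rfl
    · exact hQ x hx i
    · rw [Set.union_comm]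
      exact (hQ x hx j).symm
  let tri : α → Finset Λ := fun x => {a | ∃ i, l x i = a.1}
  have hmem : ∀ x (a : Λ), a ∈ tri x ↔ ∃ i, l x i = a.1 := fun x a => by simp [tri]
  have hon : ∀ x ∈ Q, ∀ a ∈ tri x, x ∈ a.1 := by
    intro x hx a ha
    obtain ⟨i, hi⟩ := (hmem x a).1 ha
    rw [← hi]
    exact (hl x (hQP hx) i).2
  have hcard : ∀ x ∈ Q, (tri x).card = 3 := by
    intro x hx
    have h1 : (tri x).map (Function.Embedding.subtype _) = univ.image (l x) := by
      ext b
      simp only [mem_map, Function.Embedding.coe_subtype, mem_image, mem_univ, true_and]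
      constructor
      · rintro ⟨a, ha, rfl⟩
        exact (hmem x a).1 ha
      · rintro ⟨i, rfl⟩
        exact ⟨⟨l x i, (hl x (hQP hx) i).1⟩, (hmem x _).2 ⟨i, rfl⟩, rfl⟩
    have h2 := congrArg card h1
    rw [card_map, card_image_of_injective _ (hinj x (hQP hx))] at h2
    simpa using h2
  have huniq : ∀ x ∈ Q, ∀ y ∈ Q, ∀ a b : Λ, a ≠ b → a ∈ tri x → b ∈ tri x → a ∈ tri y →
      b ∈ tri y → x = y := fun x hx y hy a b hab h1 h2 h3 h4 =>
    meet_once hM (hΛ _ a.2) (hΛ _ b.2) (fun h => hab (Subtype.ext h)) (hon x hx a h1)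
      (hon x hx b h2) (hon y hy a h3) (hon y hy b h4)
  let Γ : SimpleGraph Λ :=
    { Adj := fun a b => a ≠ b ∧ ∃ x ∈ Q, a ∈ tri x ∧ b ∈ tri x
      symm := ⟨fun a b h => ⟨h.1.symm, by
        obtain ⟨x, hx, h1, h2⟩ := h.2
        exact ⟨x, hx, h2, h1⟩⟩⟩
      loopless := ⟨fun a h => h.1 rfl⟩ }
  have hcl : ∀ x ∈ Q, Γ.IsNClique 3 (tri x) := fun x hx =>
    ⟨fun a ha b hb hab => ⟨hab, x, hx, ha, hb⟩, hcard x hx⟩
  have hsg : ∀ x ∈ Q, ∀ a b : Λ, a ≠ b → a ∈ tri x → b ∈ tri x →
      s (M.closure (a.1 ∪ b.1), a.1) ≠ s (M.closure (a.1 ∪ b.1), b.1) := by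
    intro x hx a b hab ha hb
    obtain ⟨i, hi⟩ := (hmem x a).1 ha
    obtain ⟨j, hj⟩ := (hmem x b).1 hb
    rw [← hi, ← hj]
    exact hsign x hx i j (by rw [hi, hj]; exact fun h => hab (Subtype.ext h))
  have hall : ∀ t, Γ.IsNClique 3 t → ∃ x ∈ Q, t = tri x := by
    intro t ht
    obtain ⟨a, b, c, hab, hac, hbc, rfl⟩ := SimpleGraph.is3Clique_iff.1 ht
    obtain ⟨hab', x, hx, hxa, hxb⟩ := hab
    obtain ⟨hac', z, hz, hza, hzc⟩ := hac
    obtain ⟨hbc', y, hy, hyb, hyc⟩ := hbc
    have hfin' : ∀ w ∈ Q, a ∈ tri w → b ∈ tri w → c ∈ tri w →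
        ∃ x ∈ Q, ({a, b, c} : Finset Λ) = tri x := by
      intro w hw h1 h2 h3
      refine ⟨w, hw, eq_of_subset_of_card_le ?_ (by rw [hcard w hw, ht.2])⟩
      intro u hu
      simp only [mem_insert, mem_singleton] at hu
      rcases hu with rfl | rfl | rfl <;> assumption
    by_cases hxy : x = y
    · subst hxy
      exact hfin' x hx hxa hxb hyc
    by_cases hxz : x = z
    · subst hxz
      exact hfin' x hx hxa hxb hzc
    by_cases hyz : y = z
    · subst hyz
      exact hfin' y hy hza hyb hyc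
    exfalso
    obtain ⟨e1, e2⟩ := one_plane hM (hΛ _ a.2) (hΛ _ b.2) (hΛ _ c.2) (hon x hx a hxa)
      (hon x hx b hxb) (hon y hy b hyb) (hon y hy c hyc) (hon z hz a hza) (hon z hz c hzc)
      hxy hxz hyz
    have s1 := hsg x hx a b hab' hxa hxb
    have s2 := hsg y hy b c hbc' hyb hyc
    have s3 := hsg z hz a c hac' hza hzc
    rw [e1] at s2
    rw [e2] at s3
    revert s1 s2 s3
    cases s (M.closure (a.1 ∪ b.1), a.1) <;> cases s (M.closure (a.1 ∪ b.1), b.1) <;>
      cases s (M.closure (a.1 ∪ b.1), c.1) <;> simp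
  have hLL : Γ.LocallyLinear := by
    refine ⟨fun t ht u hu htu => ?_, fun a b hab => ?_⟩
    · obtain ⟨x, hx, rfl⟩ := hall t ht
      obtain ⟨y, hy, rfl⟩ := hall u hu
      intro a ha b hb
      by_contra hab
      exact htu (by rw [huniq x hx y hy a b hab ha.1 hb.1 ha.2 hb.2])
    · obtain ⟨-, x, hx, h1, h2⟩ := hab
      exact ⟨tri x, hcl x hx, h1, h2⟩
  have hQle : Q.card ≤ #(Γ.cliqueFinset 3) := by
    refine card_le_card_of_injOn tri (fun x hx => ?_) (fun x hx y hy hxy => ?_)
    · exact mem_coe.2 (SimpleGraph.mem_cliqueFinset_iff.2 (hcl x hx))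
    · obtain ⟨a, ha, b, hb, hab⟩ := one_lt_card.1 (show 1 < (tri x).card by rw [hcard x hx]; omega)
      exact huniq x hx y hy a b hab ha hb (hxy ▸ ha) (hxy ▸ hb)
  have hRS := hLL.le_ruzsaSzemerediNumber
  rw [← ruzsaSzemerediNumberNat_card, Fintype.card_coe] at hRS
  omega

end Pool.Agent.Lib.MP_66cbdd_co.RS3
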