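import Mathlib
import Pool.Agent.Lib.MP_66cbdd_co.Defs
import Pool.Agent.Lib.MP_66cbdd_co.LowerMatroid

/-!
A locally linear graph gives a simple matroid whose lines are the vertices and whose
three-dimensional joints contain the triangles.
-/

namespace Pool.Agent.Lib.MP_66cbdd_co.RS3

open Finset Pool.Agent.Lib.MP_66cbdd_co.Lower

variable {V : Type} [Fintype V] [DecidableEq V] {Γ : SimpleGraph V} [DecidableRel Γ.Adj]

theorem inter_le_one (hΓ : Γ.EdgeDisjointTriangles) {t u : Finset V} (ht : t ∈ Γ.cliqueFinset 3)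
    (hu : u ∈ Γ.cliqueFinset 3) (htu : t ≠ u) : (t ∩ u).card ≤ 1 := by
  have h := hΓ (SimpleGraph.mem_cliqueFinset_iff.1 ht) (SimpleGraph.mem_cliqueFinset_iff.1 hu) htu
  rw [card_le_one]
  intro a ha b hb
  rw [mem_inter] at ha hb
  exact h ⟨ha.1, ha.2⟩ ⟨hb.1, hb.2⟩

theorem exc_le_pairs (hΓ : Γ.EdgeDisjointTriangles) (S : Finset V) :
    ∑ e ∈ Γ.cliqueFinset 3, ((e ∩ S).card - 1) ≤
      ((powersetCard 2 S).filter fun p : Finset V => Γ.IsClique (p : Set V)).card := by
  have h1 : ∑ e ∈ Γ.cliqueFinset 3, ((e ∩ S).card - 1) ≤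
      ∑ e ∈ Γ.cliqueFinset 3, (powersetCard 2 (e ∩ S)).card := by
    refine sum_le_sum fun e he => ?_
    have h3 : (e ∩ S).card ≤ 3 := by
      rw [← (SimpleGraph.mem_cliqueFinset_iff.1 he).2]
      exact card_le_card inter_subset_left
    rw [card_powersetCard]
    generalize (e ∩ S).card = k at h3
    interval_cases k <;> decide
  refine h1.trans ?_
  rw [← card_biUnion]
  · refine card_le_card fun p hp => ?_
    obtain ⟨e, he, hpe⟩ := mem_biUnion.1 hp
    rw [mem_powersetCard] at hpe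
    refine mem_filter.2 ⟨mem_powersetCard.2 ⟨hpe.1.trans inter_subset_right, hpe.2⟩, ?_⟩
    exact (SimpleGraph.mem_cliqueFinset_iff.1 he).1.subset
      (coe_subset.2 (hpe.1.trans inter_subset_left))
  · intro t ht u hu htu
    refine disjoint_left.2 fun p hp hq => ?_
    rw [mem_powersetCard] at hp hq
    have h2 := inter_le_one hΓ ht hu htu
    have h3 : p ⊆ t ∩ u :=
      subset_inter (hp.1.trans inter_subset_left) (hq.1.trans inter_subset_left)
    have h4 := card_le_card h3
    omega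

theorem exc_two (hΓ : Γ.EdgeDisjointTriangles) {S : Finset V} (hS : S.card ≤ 2) :
    ∑ e ∈ Γ.cliqueFinset 3, ((e ∩ S).card - 1) ≤ S.card - 1 := by
  have h1 := (exc_le_pairs hΓ S).trans (card_filter_le _ _)
  rw [card_powersetCard] at h1
  refine h1.trans ?_
  generalize S.card = k at hS
  interval_cases k <;> decide

theorem exc_three (hΓ : Γ.EdgeDisjointTriangles) {S : Finset V} (hS : S.card = 3) :
    ∑ e ∈ Γ.cliqueFinset 3, ((e ∩ S).card - 1) ≤ 2 := by
  by_cases hc : S ∈ Γ.cliqueFinset 3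
  · have h0 : ∑ e ∈ (Γ.cliqueFinset 3).erase S, ((e ∩ S).card - 1) = 0 := by
      refine sum_eq_zero fun e he => ?_
      have := inter_le_one hΓ (mem_of_mem_erase he) hc (ne_of_mem_erase he)
      omega
    rw [← add_sum_erase _ _ hc, inter_self, hS, h0]
  · refine (exc_le_pairs hΓ S).trans ?_
    have h1 : ((powersetCard 2 S).filter fun p : Finset V => Γ.IsClique (p : Set V)).card <
        (powersetCard 2 S).card := by
      refine card_lt_card (filter_ssubset.2 ?_)
      by_contra hcon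
      push Not at hcon
      refine hc (SimpleGraph.mem_cliqueFinset_iff.2 ⟨fun a ha b hb hab => ?_, hS⟩)
      have h2 := hcon {a, b} (mem_powersetCard.2 ⟨?_, card_pair hab⟩)
      · exact h2 (by simp) (by simp) hab
      · exact insert_subset ha (singleton_subset_iff.2 hb)
    rw [card_powersetCard, hS] at h1
    have : Nat.choose 3 2 = 3 := by decide
    omega

theorem other_nonedge (hΓ : Γ.EdgeDisjointTriangles) {S : Finset V} (hS : S.card = 4)
    {p : Finset V} (hp : p ∈ powersetCard 2 S) :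
    ∃ q ∈ powersetCard 2 S, q ≠ p ∧ ¬ Γ.IsClique (q : Set V) := by
  by_contra hcon
  push Not at hcon
  rw [mem_powersetCard] at hp
  obtain ⟨u, v, huv, rfl⟩ := card_eq_two.1 hp.2
  have h2 : (S \ {u, v}).card = 2 := by rw [card_sdiff_of_subset hp.1, hS, hp.2]
  obtain ⟨w, z, hwz, h3⟩ := card_eq_two.1 h2
  have hw : w ∈ S \ {u, v} := by rw [h3]; simp
  have hz : z ∈ S \ {u, v} := by rw [h3]; simp
  rw [mem_sdiff] at hw hz
  have hu : u ∈ S := hp.1 (by simp)
  have hv : v ∈ S := hp.1 (by simp)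
  have key : ∀ a ∈ S, ∀ b ∈ S, a ≠ b → b ∉ ({u, v} : Finset V) → Γ.Adj a b := by
    intro a ha b hb hab hb'
    have h4 := hcon {a, b} (mem_powersetCard.2
      ⟨insert_subset ha (singleton_subset_iff.2 hb), card_pair hab⟩)
      (fun h => hb' (h ▸ (by simp)))
    exact h4 (by simp) (by simp) hab
  have huw : u ≠ w := fun h => hw.2 (by simp [h])
  have huz : u ≠ z := fun h => hz.2 (by simp [h])
  have hvw : v ≠ w := fun h => hw.2 (by simp [h])
  have hvz : v ≠ z := fun h => hz.2 (by simp [h])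
  have t1 : ({u, w, z} : Finset V) ∈ Γ.cliqueFinset 3 :=
    SimpleGraph.mem_cliqueFinset_iff.2 (SimpleGraph.is3Clique_triple_iff.2
      ⟨key u hu w hw.1 huw hw.2, key u hu z hz.1 huz hz.2, key w hw.1 z hz.1 hwz hz.2⟩)
  have t2 : ({v, w, z} : Finset V) ∈ Γ.cliqueFinset 3 :=
    SimpleGraph.mem_cliqueFinset_iff.2 (SimpleGraph.is3Clique_triple_iff.2
      ⟨key v hv w hw.1 hvw hw.2, key v hv z hz.1 hvz hz.2, key w hw.1 z hz.1 hwz hz.2⟩)
  have hne : ({u, w, z} : Finset V) ≠ {v, w, z} := by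
    intro h
    have : u ∈ ({v, w, z} : Finset V) := h ▸ (by simp)
    simp [huv, huw, huz] at this
  have h5 := inter_le_one hΓ t1 t2 hne
  have h6 : ({w, z} : Finset V) ⊆ {u, w, z} ∩ {v, w, z} := by
    intro a ha
    simp only [mem_insert, mem_singleton] at ha
    rcases ha with rfl | rfl <;> simp
  have h7 := card_le_card h6
  rw [card_pair hwz] at h7
  omega

theorem exc_four (hΓ : Γ.EdgeDisjointTriangles) {S : Finset V} (hS : S.card = 4) :
    ∑ e ∈ Γ.cliqueFinset 3, ((e ∩ S).card - 1) ≤ 4 := by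
  refine (exc_le_pairs hΓ S).trans ?_
  have h6 : (powersetCard 2 S).card = 6 := by rw [card_powersetCard, hS]; decide
  obtain ⟨p0, hp0⟩ := card_pos.1 (show 0 < (powersetCard 2 S).card by omega)
  obtain ⟨p1, hp1, -, hn1⟩ := other_nonedge hΓ hS hp0
  obtain ⟨p2, hp2, h21, hn2⟩ := other_nonedge hΓ hS hp1
  have hsub : ((powersetCard 2 S).filter fun p : Finset V => Γ.IsClique (p : Set V)) ⊆
      powersetCard 2 S \ {p2, p1} := by
    intro p hp
    rw [mem_filter] at hp
    refine mem_sdiff.2 ⟨hp.1, fun h => ?_⟩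
    simp only [mem_insert, mem_singleton] at h
    rcases h with rfl | rfl
    · exact hn2 hp.2
    · exact hn1 hp.2
  have h1 := card_le_card hsub
  rw [card_sdiff_of_subset (insert_subset hp2 (singleton_subset_iff.2 hp1)), h6,
    card_pair h21] at h1
  exact h1

theorem config3 (hΓ : Γ.EdgeDisjointTriangles) :
    ∃ (M : Matroid ℕ) (Λ : Finset (Set ℕ)), M.E.Finite ∧ IsSimple M ∧ (∀ l ∈ Λ, IsLine M l) ∧
      Λ.card = Fintype.card V ∧ (Γ.cliqueFinset 3).card ≤ (joints M 3 Λ).ncard := by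
  classical
  set A := Γ.cliqueFinset 3 with hA
  obtain ⟨enc, henc⟩ := exists_injective_nat (Finset V ⊕ (V × Bool))
  let τ0 : Finset V ⊕ (V × Bool) → Finset V := Sum.elim id (fun x => {x.1})
  let τ : ℕ → Finset V := Function.extend enc τ0 (fun _ => ∅)
  have hτ : ∀ x, τ (enc x) = τ0 x := fun x => henc.extend_apply _ _ x
  let G : Finset ℕ := (A.disjSum (univ : Finset (V × Bool))).image enc
  have hexc : ∀ S : Finset V, exc G τ S = ∑ e ∈ A, ((e ∩ S).card - 1) := by
    intro S
    unfold exc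
    rw [sum_image (fun x _ y _ hxy => henc hxy), sum_disjSum]
    simp only [hτ, τ0, Sum.elim_inl, Sum.elim_inr, id]
    rw [add_eq_left]
    refine sum_eq_zero fun x _ => ?_
    have : (({x.1} : Finset V) ∩ S).card ≤ 1 := by
      calc _ ≤ ({x.1} : Finset V).card := card_le_card inter_subset_left
        _ = 1 := card_singleton _
    omega
  have h2 : ∀ S : Finset V, S.card ≤ 2 → exc G τ S ≤ S.card - 1 := fun S hS => by
    rw [hexc]; exact exc_two hΓ hS
  have h3 : Three G τ 2 := by
    intro S h1 hS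
    have := h2 S hS
    omega
  have hgap : Gap G τ 3 2 := by
    intro S h1 hS
    rcases (show S.card = 3 ∨ S.card = 4 by omega) with h | h
    · have := exc_three hΓ h
      rw [← hA, ← hexc] at this
      omega
    · have := exc_four hΓ h
      rw [← hA, ← hexc] at this
      omega
  have hn : 2 ≤ 3 := by omega
  have hpG : ∀ v b, enc (Sum.inr (v, b)) ∈ G := fun v b =>
    mem_image_of_mem _ (inr_mem_disjSum.2 (mem_univ _))
  have hpτ : ∀ v b, τ (enc (Sum.inr (v, b))) = {v} := fun v b => hτ _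
  have hlinj : Function.Injective (line G τ) := by
    intro v w hvw
    have h1 : enc (Sum.inr (v, true)) ∈ line G τ v := ⟨hpG _ _, by simp [hpτ]⟩
    rw [hvw] at h1
    have h2 := h1.2
    rw [hpτ, mem_singleton] at h2
    exact h2.symm
  refine ⟨mat hgap h3 hn, univ.image (line G τ), ?_, mat_simple hgap h3 hn, ?_, ?_, ?_⟩
  · rw [mat_E]; exact G.finite_toSet
  · intro l hl
    obtain ⟨v, -, rfl⟩ := mem_image.1 hl
    refine mat_line hgap h3 hn (by omega) v (hpG v true) (hpG v false) ?_ (hpτ _ _) (hpτ _ _)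
    intro hh
    have := henc hh
    simp at this
  · rw [card_image_of_injective _ hlinj, card_univ]
  · have hsub : ((A.image (fun a => enc (Sum.inl a)) : Finset ℕ) : Set ℕ) ⊆
        joints (mat hgap h3 hn) 3 (univ.image (line G τ)) := by
      intro x hx
      obtain ⟨a, ha, rfl⟩ := mem_image.1 (mem_coe.1 hx)
      have hτa : τ (enc (Sum.inl a)) = a := hτ _
      refine mat_joint hgap h3 hn (fun v => enc (Sum.inr (v, true))) (fun v => hpG v true)
        (fun v => hpτ v true) _ (fun v => mem_image_of_mem _ (mem_univ v))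
        (mem_image_of_mem _ (inl_mem_disjSum.2 ha))
        (by rw [hτa]; exact (SimpleGraph.mem_cliqueFinset_iff.1 ha).2) ?_
      rw [hτa]
      intro S hS hne
      have h4 := h2 S hS
      have h5 : (a ∩ S).card ≤ S.card := card_le_card inter_subset_right
      have h6 := hne.card_pos
      omega
    have hfin : (joints (mat hgap h3 hn) 3 (univ.image (line G τ))).Finite :=
      G.finite_toSet.subset fun x hx => hx.1
    have h1 := Set.ncard_le_ncard hsub hfin
    rw [Set.ncard_coe_finset, card_image_of_injective _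
      (fun a b hab => Sum.inl_injective (henc hab))] at h1
    exact h1

theorem lower3 (L : ℕ) :
    ∃ (M : Matroid ℕ) (Λ : Finset (Set ℕ)), M.E.Finite ∧ IsSimple M ∧ (∀ l ∈ Λ, IsLine M l) ∧
      Λ.card = L ∧ ruzsaSzemerediNumberNat L ≤ (joints M 3 Λ).ncard := by
  obtain ⟨Γ, _, hc, hLL⟩ := ruzsaSzemerediNumber_spec (α := Fin L)
  obtain ⟨M, Λ, h1, h2, h3, h4, h5⟩ := config3 hLL.1
  refine ⟨M, Λ, h1, h2, h3, by rw [h4, Fintype.card_fin], ?_⟩
  rw [hc] at h5
  exact h5

end Pool.Agent.Lib.MP_66cbdd_co.RS3
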